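import Pool.Agent.Lib.MP_60829e_nt.FS.Desc
import Pool.Agent.Lib.MP_60829e_nt.FR.Dep

/-! # The number of conditions for dependent tuples, sharp constant -/

namespace MP60829e.FS

open MP60829e.FR (kp kp_eq le_of_emb)

/-- The number of conditions does not grow. -/
theorem arith_S {N n n' m : ℕ} (ι : Fin n' ↪ Fin n) (hm : N + n * (n - 1) + 1 ≤ m) :
    (N + kp ι) + n' * (n' - 1) + 1 ≤ m := by
  rw [kp_eq]
  obtain ⟨k, rfl⟩ := Nat.exists_eq_add_of_le (le_of_emb ι)
  refine le_trans ?_ hm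
  rw [Nat.add_sub_cancel_left]
  rcases Nat.eq_zero_or_pos n' with rfl | h
  · simp
  · obtain ⟨d, rfl⟩ : ∃ d, n' = d + 1 := ⟨n' - 1, by omega⟩
    have h1 : d + 1 + k - 1 = d + k := by omega
    rw [h1, Nat.add_sub_cancel]
    nlinarith [Nat.zero_le (k * k), Nat.zero_le (k * d)]

end MP60829e.FS
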