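import Pool.Agent.Lib.MP_60829e_nt.SB.Rk
import Pool.Agent.Lib.MP_60829e_nt.SB.Los
import Pool.Agent.Lib.MP_60829e_nt.SB.Tan
import Pool.Agent.Lib.MP_60829e_nt.HS.Main

/-! # The sharp hyperplane theorem for derivations -/

open MvPolynomial Module

namespace MP60829e.FS

open MP60829e.ST (Qa Lsp Lt)
open MP60829e.PS
open MP60829e.SB

/-- The sharp hyperplane theorem in coordinates. -/
theorem hyp_countS {Q : Type} [Fintype Q] {r N : ℕ} (lam : Fin r → ℂ)
    (hlam : LinearIndependent Qa lam) (hlog : ∀ j, lam j ∈ Lsp) (g : Q → ℂ)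
    (hg : LinearIndependent Qa g) (β : Fin N → Q × Fin r → Qa) (hβ : LinearIndependent Qa β)
    (h : ∀ s, ∑ i, g i * pt lam (β s) i = 0) : N ≤ Fintype.card Q * (Fintype.card Q - 1) := by
  classical
  let e := Fintype.equivFin Q
  let v : Fin N → (Fin (Fintype.card Q) → ℂ) := fun s t => pt lam (β s) (e.symm t)
  have hv : LinearIndependent Qa v := by
    rw [Fintype.linearIndependent_iff]
    intro c hc
    rw [Fintype.linearIndependent_iff] at hβ
    refine hβ c ?_
    funext x
    obtain ⟨i, j⟩ := x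
    have h1 := congrFun hc (e i)
    simp only [Finset.sum_apply, Pi.smul_apply, Pi.zero_apply, v, Equiv.symm_apply_apply] at h1
    rw [Fintype.linearIndependent_iff] at hlam
    have h2 : ∑ j, (∑ s, c s * β s (i, j)) • lam j = 0 := by
      rw [← h1]
      simp only [pt, Finset.smul_sum, Finset.sum_smul, smul_smul]
      rw [Finset.sum_comm]
    have h3 := hlam _ h2 j
    simpa [Finset.sum_apply] using h3
  let V : Submodule Qa (Fin (Fintype.card Q) → ℂ) := Submodule.span Qa (Set.range v)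
  have hV : ∀ w ∈ V, ∀ i, w i ∈ Lsp := by
    intro w hw i
    induction hw using Submodule.span_induction with
    | mem x hx =>
      obtain ⟨s, rfl⟩ := hx
      simp only [v, pt]
      exact Submodule.sum_mem _ fun j _ => Submodule.smul_mem _ _ (hlog j)
    | zero => exact Submodule.zero_mem _
    | add x y _ _ hx hy => exact Submodule.add_mem _ hx hy
    | smul a x _ hx => exact Submodule.smul_mem _ _ hx
  have hs : ∀ w ∈ V, ∑ i, g (e.symm i) * w i = 0 := by
    intro w hw
    induction hw using Submodule.span_induction with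
    | mem x hx =>
      obtain ⟨s, rfl⟩ := hx
      have := h s
      rw [← this]
      exact e.symm.sum_comp fun i => g i * pt lam (β s) i
    | zero => simp
    | add x y _ _ hx hy =>
      simp only [Pi.add_apply, mul_add, Finset.sum_add_distrib, hx, hy, add_zero]
    | smul a x _ hx =>
      simp only [Pi.smul_apply, mul_smul_comm]
      rw [← Finset.smul_sum, hx, smul_zero]
  have hgg : LinearIndependent Qa (fun i => g (e.symm i)) := hg.comp _ e.symm.injective
  obtain ⟨hfin, hle⟩ := HS.hps _ hgg V hV hs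
  have hN : finrank Qa V = N := by
    rw [finrank_span_eq_card hv, Fintype.card_fin]
  rwa [hN] at hle

/-- The derivations in `Δ` which kill `z` and `γ` give at most `e (e - 1)` independent vectors
`D b`, `b_i = M_i + ∑ γ M_j`. -/
theorem rk_bS {I ζ ι : Type} [Fintype ζ] [Fintype ι] [DecidableEq ι] {r : ℕ}
    (lam : Fin r → ℂ) (hlam : LinearIndependent Qa lam) (hlog : ∀ j, lam j ∈ Lsp)
    (U : Ultrafilter I) (G : MvPolynomial (ζ ⊕ ι) ℂ) (z : I → ζ → Qa) (M : I → ι × Fin r → Qa)
    (h : ∀ᶠ a in (U : Filter I), eval (pv (z a) (pt lam (M a))) G = 0) (Q : Finset ι)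
    (γ : I → {j // j ∉ Q} × {i // i ∈ Q} → Qa)
    (hli : ∀ᶠ a in (U : Filter I), LinearIndependent Qa fun i : {i // i ∈ Q} =>
      eval (pv (z a) (pt lam (M a))) (pderiv (Sum.inr i.1) G))
    (hγ : ∀ᶠ a in (U : Filter I), ∀ j : {j // j ∉ Q},
      eval (pv (z a) (pt lam (M a))) (pderiv (Sum.inr j.1) G) =
        ∑ i, γ a (j, i) • eval (pv (z a) (pt lam (M a))) (pderiv (Sum.inr i.1) G))
    (b : I → {i // i ∈ Q} × Fin r → Qa)
    (hb : ∀ a i l, b a (i, l) = M a (i.1, l) + ∑ j, γ a (j, i) * M a (j.1, l))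
    (Δ : Submodule (UP U Qa) (Derivation Qa (UP U Qa) (UP U Qa)))
    (hz : ∀ D ∈ Δ, ∀ t, D (cls U z t) = 0) (hg : ∀ D ∈ Δ, ∀ p, D (cls U γ p) = 0) :
    rk Δ (cls U b) ≤ Q.card * (Q.card - 1) := by
  classical
  by_contra hcon
  obtain ⟨D, hD, hDi⟩ := exists_of_le_rk (N := Q.card * (Q.card - 1) + 1) Δ (cls U b) (by omega)
  -- representatives
  have hrep : ∀ (s : Fin (Q.card * (Q.card - 1) + 1)) (p : ι × Fin r),
      ∃ e : I → Qa, UP.mk U e = D s (cls U M p) := fun s p => UP.mk_surjective U _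
  choose e he using hrep
  obtain ⟨T, hT⟩ : ∃ T : Fin (Q.card * (Q.card - 1) + 1) → I → ι × Fin r → Qa,
      T = fun s a p => e s p a := ⟨_, rfl⟩
  have hTD : ∀ s p, cls U (T s) p = D s (cls U M p) := by
    intro s p
    rw [← he s p, hT]
    rfl
  obtain ⟨B, hB⟩ : ∃ B : Fin (Q.card * (Q.card - 1) + 1) → I → {i // i ∈ Q} × Fin r → Qa,
      B = fun s a p => T s a (p.1.1, p.2) + ∑ j : {j // j ∉ Q}, γ a (j, p.1) * T s a (j.1, p.2) :=
    ⟨_, rfl⟩
  have hclsb : ∀ (b' : I → {i // i ∈ Q} × Fin r → Qa) (M' : I → ι × Fin r → Qa),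
      (∀ a i l, b' a (i, l) = M' a (i.1, l) + ∑ j : {j // j ∉ Q}, γ a (j, i) * M' a (j.1, l)) →
      ∀ i l, cls U b' (i, l) = cls U M' (i.1, l) +
        ∑ j : {j // j ∉ Q}, cls U γ (j, i) * cls U M' (j.1, l) := by
    intro b' M' hb' i l
    have h1 : (fun a => b' a (i, l)) = (fun a => M' a (i.1, l)) +
        ∑ j : {j // j ∉ Q}, (fun a => γ a (j, i)) * (fun a => M' a (j.1, l)) := by
      funext a
      simp only [Pi.add_apply, Finset.sum_apply, Pi.mul_apply]
      exact hb' a i l
    unfold cls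
    rw [h1, map_add, map_sum]
    simp only [map_mul]
  have hBD : ∀ s, cls U (B s) = evl (cls U b) (D s) := by
    intro s
    funext ⟨i, l⟩
    rw [evl_apply, hclsb b M hb i l, hclsb (B s) (T s) (fun a i l => by rw [hB]) i l, map_add,
      map_sum, hTD]
    congr 1
    refine Finset.sum_congr rfl fun j _ => ?_
    rw [Derivation.leibniz, hg _ (hD s), smul_zero, add_zero, hTD, smul_eq_mul]
  have hBi : LinearIndependent (UP U Qa) fun s => cls U fun a => (fun s' => B s' a) s := by
    have h1 : (fun s => cls U fun a => (fun s' => B s' a) s) = fun s => evl (cls U b) (D s) := by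
      funext s
      exact hBD s
    rw [h1]
    exact hDi
  have h2 := eventually_li U (fun a s => B s a) hBi
  have h3 : ∀ᶠ a in (U : Filter I), ∀ s, ∑ i, eval (pv (z a) (pt lam (M a)))
      (pderiv (Sum.inr i) G) * pt lam (T s a) i = 0 :=
    Filter.eventually_all.2 fun s => tangent U lam G z M h (D s) (hz _ (hD s)) (T s) (hTD s)
  obtain ⟨a, ⟨⟨ha1, ha2⟩, ha3⟩, ha4⟩ := (((h2.and h3).and hli).and hγ).exists
  have h4 := hyp_countS lam hlam hlog _ ha3 (fun s => B s a) ha1 (fun s => by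
    rw [← ha2 s]
    obtain ⟨g, hgdef⟩ : ∃ g : ι → ℂ, g = fun i => eval (pv (z a) (pt lam (M a)))
      (pderiv (Sum.inr i) G) := ⟨_, rfl⟩
    have hg1 : ∀ i, eval (pv (z a) (pt lam (M a))) (pderiv (Sum.inr i) G) = g i := fun i => by
      rw [hgdef]
    simp only [hg1] at ha4 ⊢
    have h5 : ∀ i : {i // i ∈ Q}, pt lam (B s a) i = pt lam (T s a) i.1 +
        ∑ j : {j // j ∉ Q}, (γ a (j, i) : ℂ) * pt lam (T s a) j.1 := by
      intro i
      unfold pt
      rw [hB]
      simp only [add_smul, Finset.sum_add_distrib, Finset.sum_smul, mul_smul]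
      congr 1
      rw [Finset.sum_comm]
      refine Finset.sum_congr rfl fun j _ => ?_
      rw [Finset.mul_sum]
      exact Finset.sum_congr rfl fun l _ => rfl
    simp only [h5, mul_add, Finset.sum_add_distrib]
    rw [← Finset.sum_add_sum_compl Q (fun i => g i * pt lam (T s a) i)]
    have h6 : ∑ i ∈ Q, g i * pt lam (T s a) i = ∑ i : {i // i ∈ Q}, g i.1 * pt lam (T s a) i.1 :=
      (Finset.sum_coe_sort Q fun i => g i * pt lam (T s a) i).symm
    have h7 : ∑ i ∈ Qᶜ, g i * pt lam (T s a) i =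
        ∑ j : {j // j ∉ Q}, g j.1 * pt lam (T s a) j.1 := by
      refine Finset.sum_subtype Qᶜ (fun i => ?_) _
      rw [Finset.mem_compl]
    rw [h6, h7]
    congr 1
    simp only [ha4, Finset.mul_sum, Finset.sum_mul]
    rw [Finset.sum_comm]
    refine Finset.sum_congr rfl fun j _ => Finset.sum_congr rfl fun i _ => ?_
    rw [Algebra.smul_def]
    have h8 : (algebraMap Qa ℂ) (γ a (j, i)) = (γ a (j, i) : ℂ) := rfl
    rw [h8]
    ring)
  rw [Fintype.card_coe] at h4
  omega

end MP60829e.FS
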