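import Pool.Agent.Lib.MP_60829e_nt.SB.Iter
import Pool.Agent.Lib.MP_60829e_nt.SB.Red
import Pool.Agent.Lib.MP_60829e_nt.SB.Hyp
import Pool.Agent.Lib.MP_60829e_nt.FS.Hyp

/-! # The induction for the column lemma, sharp constant -/

open MvPolynomial Module

namespace MP60829e.FS

open MP60829e.ST (Qa Lsp Lt)
open MP60829e.PS
open MP60829e.SB

/-- An ultrafilter picks one of finitely many alternatives. -/
theorem pickE {I A : Type} [Finite A] (U : Ultrafilter I) (R : I → A → Prop)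
    (h : ∀ᶠ a in (U : Filter I), ∃ p, R a p) : ∃ p, ∀ᶠ a in (U : Filter I), R a p := by
  by_contra hcon
  have h1 : ∀ p, ∀ᶠ a in (U : Filter I), ¬ R a p := by
    intro p
    rw [Ultrafilter.eventually_not]
    exact fun h2 => hcon ⟨p, h2⟩
  have h3 : ∀ᶠ a in (U : Filter I), ∀ p, ¬ R a p := Filter.eventually_all.2 h1
  obtain ⟨a, ⟨p, hp⟩, ha⟩ := (h.and h3).exists
  exact ha p hp

private theorem arith1 {m e : ℕ} (he : 1 ≤ e) (hm : e ≤ m) :
    e * (e - 1) + (m - e) * e ≤ m * (m - 1) := by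
  obtain ⟨d, rfl⟩ : ∃ d, m = e + d := ⟨m - e, by omega⟩
  obtain ⟨e', rfl⟩ : ∃ e', e = e' + 1 := ⟨e - 1, by omega⟩
  have h1 : e' + 1 + d - (e' + 1) = d := by omega
  have h2 : e' + 1 + d - 1 = e' + d := by omega
  rw [h1, h2, Nat.add_sub_cancel]
  nlinarith

private theorem arith2 {m e : ℕ} (he : 1 ≤ e) (hm : e ≤ m) :
    (m - e) * (m - e - 1) + e * (e - 1) + (m - e) * e ≤ m * (m - 1) := by
  obtain ⟨d, rfl⟩ : ∃ d, m = e + d := ⟨m - e, by omega⟩
  obtain ⟨e', rfl⟩ : ∃ e', e = e' + 1 := ⟨e - 1, by omega⟩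
  have h1 : e' + 1 + d - (e' + 1) = d := by omega
  have h2 : e' + 1 + d - 1 = e' + d := by omega
  rw [h1, h2, Nat.add_sub_cancel]
  rcases Nat.eq_zero_or_pos d with rfl | hd
  · simp
  · obtain ⟨d', rfl⟩ : ∃ d', d = d' + 1 := ⟨d - 1, by omega⟩
    rw [Nat.add_sub_cancel]
    nlinarith

/-- The claim: the derivations in `Δ` have rank at most `m (m - 1)` on the generic parameters `A`,
if the zero `M lam` of `F (z, ·)` is not a zero of the line in the direction `c`. -/
theorem claimC {I : Type} {r μ : ℕ} (lam : Fin r → ℂ) (hlam : LinearIndependent Qa lam)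
    (hlog : ∀ j, lam j ∈ Lsp) (U : Ultrafilter I) (A : I → Fin μ → Qa) (m : ℕ) :
    ∀ (ζ ι : Type) [Fintype ζ] [Fintype ι] [DecidableEq ι] (_ : Fintype.card ι = m)
      (F : MvPolynomial (ζ ⊕ ι) ℂ) (z : I → ζ → Qa) (M : I → ι × Fin r → Qa) (c : I → ι → Qa)
      (Δ : Submodule (UP U Qa) (Derivation Qa (UP U Qa) (UP U Qa)))
      (_ : ∀ D ∈ Δ, ∀ t, D (cls U z t) = 0)
      (_ : ∀ᶠ a in (U : Filter I), eval (pv (z a) (pt lam (M a))) F = 0)
      (_ : ∀ᶠ a in (U : Filter I), ∃ s : ℂ,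
        eval (pv (z a) fun t => pt lam (M a) t + s * (c a t : ℂ)) F ≠ 0)
      (_ : ∀ D ∈ Δ, ∀ u : ι → UP U Qa, ∑ t, u t * cls U c t ≠ 0 →
        (∀ l, ∑ t, u t * D (cls U M (t, l)) = 0) → ∀ s, D (cls U A s) = 0),
      rk Δ (cls U A) ≤ m * (m - 1) := by
  classical
  induction m using Nat.strong_induction_on with
  | _ m IH =>
  intro ζ ι _ _ _ hcard F z M c Δ hz h0 h1 hinj
  obtain ⟨L, hL⟩ := exists_iter F
  -- the polynomial and the subset
  have h2 : ∀ᶠ a in (U : Filter I), ∃ p : {G // G ∈ L} × Finset ι,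
      eval (pv (z a) (pt lam (M a))) p.1.1 = 0 ∧ p.2.Nonempty ∧
      (LinearIndependent Qa fun i : {i // i ∈ p.2} =>
        eval (pv (z a) (pt lam (M a))) (pderiv (Sum.inr i.1) p.1.1)) ∧
      ∃ γ : {j // j ∉ p.2} × {i // i ∈ p.2} → Qa, ∀ j : {j // j ∉ p.2},
        eval (pv (z a) (pt lam (M a))) (pderiv (Sum.inr j.1) p.1.1) =
          ∑ i, γ (j, i) • eval (pv (z a) (pt lam (M a))) (pderiv (Sum.inr i.1) p.1.1) := by
    filter_upwards [h0, h1] with a ha0 ha1
    obtain ⟨s, hs⟩ := ha1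
    obtain ⟨G, hG, hG0, i, hi⟩ := hL (fun t => (z a t : ℂ)) (pt lam (M a)) _ ha0 hs
    obtain ⟨Q, hQ, hQi, γ, hγ⟩ := exists_sub (fun i =>
      eval (pv (z a) (pt lam (M a))) (pderiv (Sum.inr i) G)) ⟨i, hi⟩
    exact ⟨(⟨G, hG⟩, Q), hG0, hQ, hQi, γ, hγ⟩
  obtain ⟨⟨⟨G, hG⟩, Q⟩, hp⟩ := pickE U _ h2
  dsimp only at hp
  have hG0 : ∀ᶠ a in (U : Filter I), eval (pv (z a) (pt lam (M a))) G = 0 :=
    hp.mono fun a ha => ha.1
  have hQ : Q.Nonempty := hp.exists.choose_spec.2.1
  have hQi := hp.mono fun a ha => ha.2.2.1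
  obtain ⟨γ, hγ⟩ := (hp.mono fun a ha => ha.2.2.2).choice
  have he : 1 ≤ Q.card := hQ.card_pos
  have hem : Q.card ≤ m := by
    rw [← hcard]
    exact Finset.card_le_univ Q
  obtain ⟨b, hb⟩ : ∃ b : I → {i // i ∈ Q} × Fin r → Qa, b = fun a p => M a (p.1.1, p.2) +
      ∑ j : {j // j ∉ Q}, γ a (j, p.1) * M a (j.1, p.2) := ⟨_, rfl⟩
  have hb' : ∀ a i l, b a (i, l) = M a (i.1, l) + ∑ j, γ a (j, i) * M a (j.1, l) :=
    fun a i l => by rw [hb]
  have hcardQ : Fintype.card ({j // j ∉ Q} × {i // i ∈ Q}) = (m - Q.card) * Q.card := by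
    rw [Fintype.card_prod, Fintype.card_subtype_compl, Fintype.card_coe, hcard]
  -- kill the coefficients
  have hs1 := rk_split Δ (cls U A) (cls U γ)
  have hs2 : rk Δ (cls U γ) ≤ (m - Q.card) * Q.card := by
    rw [← hcardQ]
    exact rk_le_card Δ _
  obtain ⟨Δ1, hΔ1⟩ : ∃ Δ1, Δ1 = Δ ⊓ LinearMap.ker (evl (cls U γ)) := ⟨_, rfl⟩
  rw [← hΔ1] at hs1
  have hmem1 : ∀ D ∈ Δ1, D ∈ Δ ∧ ∀ p, D (cls U γ p) = 0 := by
    intro D hD
    rw [hΔ1] at hD
    obtain ⟨hD1, hD2⟩ := Submodule.mem_inf.1 hD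
    exact ⟨hD1, fun p => congrFun (LinearMap.mem_ker.1 hD2) p⟩
  have hrb : rk Δ1 (cls U b) ≤ Q.card * (Q.card - 1) :=
    rk_bS lam hlam hlog U G z M hG0 Q γ hQi hγ b hb' Δ1 (fun D hD => hz D (hmem1 D hD).1)
      (fun D hD => (hmem1 D hD).2)
  -- the class of b
  have hbcl : ∀ i l, cls U b (i, l) = cls U M (i.1, l) +
      ∑ j : {j // j ∉ Q}, cls U γ (j, i) * cls U M (j.1, l) := by
    intro i l
    have h3 : (fun a => b a (i, l)) = (fun a => M a (i.1, l)) +
        ∑ j : {j // j ∉ Q}, (fun a => γ a (j, i)) * (fun a => M a (j.1, l)) := by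
      funext a
      simp only [Pi.add_apply, Finset.sum_apply, Pi.mul_apply]
      exact hb' a i l
    unfold cls
    rw [h3, map_add, map_sum]
    simp only [map_mul]
  -- sums over ι
  have hsum : ∀ f : ι → UP U Qa, ∑ t, f t = ∑ i : {i // i ∈ Q}, f i.1 + ∑ j : {j // j ∉ Q}, f j.1 := by
    intro f
    rw [← Finset.sum_add_sum_compl Q f, ← Finset.sum_coe_sort Q f]
    congr 1
    refine Finset.sum_subtype Qᶜ (fun i => ?_) _
    rw [Finset.mem_compl]
  by_cases hcase : ∀ᶠ a in (U : Filter I), ∃ i : {i // i ∈ Q},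
      c a i.1 + ∑ j : {j // j ∉ Q}, γ a (j, i) * c a j.1 ≠ 0
  · -- the direction is transversal
    obtain ⟨i0, hi0⟩ := pickE U _ hcase
    have h3 : rk Δ1 (cls U A) ≤ rk Δ1 (cls U b) := by
      apply rk_le_of_forall
      intro D hD hDb s
      obtain ⟨u, hu⟩ : ∃ u : ι → UP U Qa, u = fun t =>
          if h : t ∈ Q then (if (⟨t, h⟩ : {i // i ∈ Q}) = i0 then 1 else 0)
          else cls U γ (⟨t, h⟩, i0) := ⟨_, rfl⟩
      have hu1 : ∀ i : {i // i ∈ Q}, u i.1 = if i = i0 then 1 else 0 := by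
        intro i
        rw [hu]
        dsimp only
        rw [dif_pos i.2]
      have hu2 : ∀ j : {j // j ∉ Q}, u j.1 = cls U γ (j, i0) := by
        intro j
        rw [hu]
        dsimp only
        rw [dif_neg j.2]
      have hus : ∀ f : ι → UP U Qa, ∑ t, u t * f t =
          f i0.1 + ∑ j : {j // j ∉ Q}, cls U γ (j, i0) * f j.1 := by
        intro f
        rw [hsum]
        congr 1
        · simp only [hu1, ite_mul, one_mul, zero_mul, Finset.sum_ite_eq', Finset.mem_univ,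
            if_true]
        · simp only [hu2]
      refine hinj D (hmem1 D hD).1 u ?_ (fun l => ?_) s
      · rw [hus]
        intro h4
        have h5 : (fun a => c a i0.1 + ∑ j : {j // j ∉ Q}, γ a (j, i0) * c a j.1) =
            (fun a => c a i0.1) + ∑ j : {j // j ∉ Q}, (fun a => γ a (j, i0)) * (fun a => c a j.1) := by
          funext a
          simp only [Pi.add_apply, Finset.sum_apply, Pi.mul_apply]
        have h6 : UP.mk U (fun a => c a i0.1 + ∑ j : {j // j ∉ Q}, γ a (j, i0) * c a j.1) = 0 := by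
          rw [h5, map_add, map_sum]
          simp only [map_mul]
          exact h4
        obtain ⟨a, ha1, ha2⟩ := (hi0.and (UP.mk_eq_zero.1 h6)).exists
        exact ha1 ha2
      · rw [hus]
        have h4 := hDb (i0, l)
        rw [hbcl, map_add, map_sum] at h4
        rw [← h4]
        congr 1
        refine Finset.sum_congr rfl fun j _ => ?_
        rw [Derivation.leibniz, (hmem1 D hD).2, smul_zero, add_zero, smul_eq_mul]
    have h4 := arith1 he hem
    omega
  · -- the direction is tangent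
    rw [← Ultrafilter.eventually_not] at hcase
    have hc0 : ∀ᶠ a in (U : Filter I), ∀ i : {i // i ∈ Q},
        c a i.1 = - ∑ j : {j // j ∉ Q}, γ a (j, i) * c a j.1 := by
      refine hcase.mono fun a ha i => ?_
      push Not at ha
      exact eq_neg_of_add_eq_zero_left (ha i)
    have hs3 := rk_split Δ1 (cls U A) (cls U b)
    obtain ⟨Δ2, hΔ2⟩ : ∃ Δ2, Δ2 = Δ1 ⊓ LinearMap.ker (evl (cls U b)) := ⟨_, rfl⟩
    rw [← hΔ2] at hs3
    have hmem2 : ∀ D ∈ Δ2, D ∈ Δ1 ∧ ∀ p, D (cls U b p) = 0 := by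
      intro D hD
      rw [hΔ2] at hD
      obtain ⟨hD1, hD2⟩ := Submodule.mem_inf.1 hD
      exact ⟨hD1, fun p => congrFun (LinearMap.mem_ker.1 hD2) p⟩
    have h3 := IH (m - Q.card) (by omega) (NP ζ ι Q r) {j // j ∉ Q} (by
      rw [Fintype.card_subtype_compl, Fintype.card_coe, hcard]) (red lam Q F)
      (fun a => Sum.elim (z a) (Sum.elim (γ a) (b a))) (fun a p => M a (p.1.1, p.2))
      (fun a j => c a j.1) Δ2 ?_ ?_ ?_ ?_
    · have h4 := arith2 he hem
      omega
    · rintro D hD (t | (p | p))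
      · exact hz D (hmem1 D (hmem2 D hD).1).1 t
      · exact (hmem1 D (hmem2 D hD).1).2 p
      · exact (hmem2 D hD).2 p
    · filter_upwards [h0] with a ha
      rw [eval_red, full_pt lam Q (γ a) (M a) (b a) (hb' a)]
      exact ha
    · filter_upwards [h1, hc0] with a ha ha2
      obtain ⟨s, hs⟩ := ha
      refine ⟨s, ?_⟩
      rw [eval_red]
      have h4 : full lam Q (γ a) (b a) (fun t => pt lam (fun p : {j // j ∉ Q} × Fin r =>
          M a (p.1.1, p.2)) t + s * (c a t.1 : ℂ)) =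
          fun t => pt lam (M a) t + s * (c a t : ℂ) := by
        have h5 := full_pt lam Q (γ a) (M a) (b a) (hb' a)
        funext i
        have h6 := congrFun h5 i
        rw [← h6]
        unfold full
        by_cases hi : i ∈ Q
        · rw [dif_pos hi, dif_pos hi]
          have h7 := ha2 ⟨i, hi⟩
          have h8 : (c a i : ℂ) = - ∑ j : {j // j ∉ Q}, (γ a (j, ⟨i, hi⟩) : ℂ) * (c a j.1 : ℂ) := by
            have h9 := congrArg (fun q : Qa => (q : ℂ)) h7
            simp only at h9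
            rw [h9]
            push_cast
            rfl
          rw [h8, mul_neg, Finset.mul_sum]
          simp only [mul_add, Finset.sum_add_distrib]
          rw [sub_add_eq_sub_sub, sub_eq_add_neg _ (∑ _, _ * (_ * _))]
          congr 2
          exact Finset.sum_congr rfl fun j _ => by ring
        · rw [dif_neg hi, dif_neg hi]
      rw [h4]
      exact hs
    · intro D hD u' hu' hu'' s
      obtain ⟨u, hu⟩ : ∃ u : ι → UP U Qa, u = fun t =>
          if h : t ∈ Q then 0 else u' ⟨t, h⟩ := ⟨_, rfl⟩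
      have hu1 : ∀ i : {i // i ∈ Q}, u i.1 = 0 := by
        intro i
        rw [hu]
        dsimp only
        rw [dif_pos i.2]
      have hu2 : ∀ j : {j // j ∉ Q}, u j.1 = u' j := by
        intro j
        rw [hu]
        dsimp only
        rw [dif_neg j.2]
      have hus : ∀ f : ι → UP U Qa, ∑ t, u t * f t = ∑ j : {j // j ∉ Q}, u' j * f j.1 := by
        intro f
        rw [hsum]
        simp only [hu1, hu2, zero_mul, Finset.sum_const_zero, zero_add]
      refine hinj D (hmem1 D (hmem2 D hD).1).1 u ?_ (fun l => ?_) s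
      · rw [hus]
        exact hu'
      · rw [hus]
        exact hu'' l

end MP60829e.FS
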