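import Pool.Agent.Lib.MP_60829e_nt.FS.Claim

/-! # The induction for the column lemma with an affine space of directions -/

open MvPolynomial Module

namespace MP60829e.FS

open MP60829e.ST (Qa Lsp Lt)
open MP60829e.PS
open MP60829e.SB

private theorem arith1 {m e : ℕ} (he : 1 ≤ e) (hm : e ≤ m) :
    e * (e - 1) + (m - e) * e ≤ m * (m - 1) := by
  obtain ⟨d, rfl⟩ : ∃ d, m = e + d := ⟨m - e, by omega⟩
  obtain ⟨e', rfl⟩ : ∃ e', e = e' + 1 := ⟨e - 1, by omega⟩
  have h1 : e' + 1 + d - (e' + 1) = d := by omega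
  have h2 : e' + 1 + d - 1 = e' + d := by omega
  rw [h1, h2, Nat.add_sub_cancel]
  nlinarith

private theorem arith2 {m e : ℕ} (he : 1 ≤ e) (hm : e ≤ m) :
    (m - e) * (m - e - 1) + e * (e - 1) + (m - e) * e ≤ m * (m - 1) := by
  obtain ⟨d, rfl⟩ : ∃ d, m = e + d := ⟨m - e, by omega⟩
  obtain ⟨e', rfl⟩ : ∃ e', e = e' + 1 := ⟨e - 1, by omega⟩
  have h1 : e' + 1 + d - (e' + 1) = d := by omega
  have h2 : e' + 1 + d - 1 = e' + d := by omega
  rw [h1, h2, Nat.add_sub_cancel]
  rcases Nat.eq_zero_or_pos d with rfl | hd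
  · simp
  · obtain ⟨d', rfl⟩ : ∃ d', d = d' + 1 := ⟨d - 1, by omega⟩
    rw [Nat.add_sub_cancel]
    nlinarith

/-- A functional on the image. -/
private theorem factor {k V W : Type*} [Field k] [AddCommGroup V] [Module k V] [AddCommGroup W]
    [Module k W] (ρ : V →ₗ[k] W) (φ : V →ₗ[k] k) (Γ : Submodule k V)
    (h : ∀ g ∈ Γ, ρ g = 0 → φ g = 0) : ∃ α : W →ₗ[k] k, ∀ g ∈ Γ, α (ρ g) = φ g := by
  have h1 : φ.domRestrict Γ ∈ LinearMap.range (ρ.domRestrict Γ).dualMap := by
    rw [LinearMap.range_dualMap_eq_dualAnnihilator_ker, Submodule.mem_dualAnnihilator]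
    intro g hg
    exact h g.1 g.2 hg
  obtain ⟨α, hα⟩ := h1
  refine ⟨α, fun g hg => ?_⟩
  exact LinearMap.congr_fun hα ⟨g, hg⟩

/-- The linear map with the kernel `R`. -/
noncomputable def rho {ι : Type} [Fintype ι] [DecidableEq ι] (Q : Finset ι)
    (γ : {j // j ∉ Q} × {i // i ∈ Q} → Qa) : (ι → Qa) →ₗ[Qa] ({i // i ∈ Q} → Qa) where
  toFun v i := v i.1 + ∑ j, γ (j, i) * v j.1
  map_add' v w := by
    funext i
    simp only [Pi.add_apply, mul_add, Finset.sum_add_distrib]
    ring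
  map_smul' c v := by
    funext i
    simp only [Pi.smul_apply, smul_eq_mul, RingHom.id_apply, mul_add, Finset.mul_sum]
    congr 1
    exact Finset.sum_congr rfl fun j _ => by ring

theorem rho_apply {ι : Type} [Fintype ι] [DecidableEq ι] (Q : Finset ι)
    (γ : {j // j ∉ Q} × {i // i ∈ Q} → Qa) (v : ι → Qa) (i : {i // i ∈ Q}) :
    rho Q γ v i = v i.1 + ∑ j, γ (j, i) * v j.1 := rfl

/-- A functional on the target of `rho` as a sum. -/
private theorem dual_eq {Q : Type} [Fintype Q] [DecidableEq Q] (α : (Q → Qa) →ₗ[Qa] Qa)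
    (v : Q → Qa) : α v = ∑ i, α (Pi.single i 1) * v i := by
  conv_lhs => rw [← Finset.univ_sum_single v]
  rw [map_sum]
  refine Finset.sum_congr rfl fun i _ => ?_
  have h1 : (Pi.single i (v i) : Q → Qa) = v i • Pi.single i 1 := by
    rw [← Pi.single_smul, smul_eq_mul, mul_one]
  rw [h1, map_smul, smul_eq_mul, mul_comm]

/-- The vector of the functional `α ∘ rho` plus `u'` on the complement. -/
noncomputable def uvec {ι : Type} [Fintype ι] [DecidableEq ι] (Q : Finset ι)
    (γ : {j // j ∉ Q} × {i // i ∈ Q} → Qa) (α : {i // i ∈ Q} → Qa) (u' : {j // j ∉ Q} → Qa)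
    (t : ι) : Qa :=
  if h : t ∈ Q then α ⟨t, h⟩ else u' ⟨t, h⟩ + ∑ i, α i * γ (⟨t, h⟩, i)

private theorem sum_split {ι R : Type} [Fintype ι] [DecidableEq ι] [CommRing R] (Q : Finset ι)
    (f : ι → R) : ∑ t, f t = ∑ i : {i // i ∈ Q}, f i.1 + ∑ j : {j // j ∉ Q}, f j.1 := by
  rw [← Finset.sum_add_sum_compl Q f, ← Finset.sum_coe_sort Q f]
  congr 1
  refine Finset.sum_subtype Qᶜ (fun i => ?_) _
  rw [Finset.mem_compl]

private theorem uvec_sum {ι : Type} [Fintype ι] [DecidableEq ι] (Q : Finset ι)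
    (γ : {j // j ∉ Q} × {i // i ∈ Q} → Qa) (α : {i // i ∈ Q} → Qa) (u' : {j // j ∉ Q} → Qa)
    (v : ι → Qa) : ∑ t, uvec Q γ α u' t * v t =
      ∑ i, α i * rho Q γ v i + ∑ j, u' j * v j.1 := by
  rw [sum_split Q]
  have h1 : ∀ i : {i // i ∈ Q}, uvec Q γ α u' i.1 = α i := by
    intro i
    unfold uvec
    rw [dif_pos i.2]
  have h2 : ∀ j : {j // j ∉ Q}, uvec Q γ α u' j.1 = u' j + ∑ i, α i * γ (j, i) := by
    intro j
    unfold uvec
    rw [dif_neg j.2]
  simp only [h1, h2, rho_apply, mul_add, add_mul, Finset.sum_add_distrib, Finset.sum_mul,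
    Finset.mul_sum]
  rw [add_assoc]
  congr 1
  rw [add_comm]
  congr 1
  rw [Finset.sum_comm]
  exact Finset.sum_congr rfl fun i _ => Finset.sum_congr rfl fun j _ => by ring

/-- The claim: the derivations in `Δ` have rank at most `m (m - 1)` on the generic parameters `A`,
if the zero `M lam` of `F (z, ·)` is not a zero of a line with a direction in `c + Γ`. -/
theorem claimY {I : Type} {r μ : ℕ} (lam : Fin r → ℂ) (hlam : LinearIndependent Qa lam)
    (hlog : ∀ j, lam j ∈ Lsp) (U : Ultrafilter I) (A : I → Fin μ → Qa) (m : ℕ) :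
    ∀ (ζ ι : Type) [Fintype ζ] [Fintype ι] [DecidableEq ι] (_ : Fintype.card ι = m)
      (F : MvPolynomial (ζ ⊕ ι) ℂ) (z : I → ζ → Qa) (M : I → ι × Fin r → Qa) (c : I → ι → Qa)
      (Γ : I → Submodule Qa (ι → Qa))
      (Δ : Submodule (UP U Qa) (Derivation Qa (UP U Qa) (UP U Qa)))
      (_ : ∀ D ∈ Δ, ∀ t, D (cls U z t) = 0)
      (_ : ∀ᶠ a in (U : Filter I), eval (pv (z a) (pt lam (M a))) F = 0)
      (_ : ∀ᶠ a in (U : Filter I), ∀ g ∈ Γ a, ∃ s : ℂ,
        eval (pv (z a) fun t => pt lam (M a) t + s * ((c a + g) t : ℂ)) F ≠ 0)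
      (_ : ∀ D ∈ Δ, ∀ u : I → ι → Qa, (∀ᶠ a in (U : Filter I),
        (∀ g ∈ Γ a, ∑ t, u a t * g t = 0) ∧ ∑ t, u a t * c a t ≠ 0) →
        (∀ l, ∑ t, cls U u t * D (cls U M (t, l)) = 0) → ∀ s, D (cls U A s) = 0),
      rk Δ (cls U A) ≤ m * (m - 1) := by
  classical
  induction m using Nat.strong_induction_on with
  | _ m IH =>
  intro ζ ι _ _ _ hcard F z M c Γ Δ hz h0 h1 hinj
  obtain ⟨L, hL⟩ := exists_iter F
  -- the polynomial and the subset
  have h2 : ∀ᶠ a in (U : Filter I), ∃ p : {G // G ∈ L} × Finset ι,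
      eval (pv (z a) (pt lam (M a))) p.1.1 = 0 ∧ p.2.Nonempty ∧
      (LinearIndependent Qa fun i : {i // i ∈ p.2} =>
        eval (pv (z a) (pt lam (M a))) (pderiv (Sum.inr i.1) p.1.1)) ∧
      ∃ γ : {j // j ∉ p.2} × {i // i ∈ p.2} → Qa, ∀ j : {j // j ∉ p.2},
        eval (pv (z a) (pt lam (M a))) (pderiv (Sum.inr j.1) p.1.1) =
          ∑ i, γ (j, i) • eval (pv (z a) (pt lam (M a))) (pderiv (Sum.inr i.1) p.1.1) := by
    filter_upwards [h0, h1] with a ha0 ha1
    obtain ⟨s, hs⟩ := ha1 0 (Submodule.zero_mem _)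
    obtain ⟨G, hG, hG0, i, hi⟩ := hL (fun t => (z a t : ℂ)) (pt lam (M a)) _ ha0 hs
    obtain ⟨Q, hQ, hQi, γ, hγ⟩ := exists_sub (fun i =>
      eval (pv (z a) (pt lam (M a))) (pderiv (Sum.inr i) G)) ⟨i, hi⟩
    exact ⟨(⟨G, hG⟩, Q), hG0, hQ, hQi, γ, hγ⟩
  obtain ⟨⟨⟨G, hG⟩, Q⟩, hp⟩ := pickE U _ h2
  dsimp only at hp
  have hG0 : ∀ᶠ a in (U : Filter I), eval (pv (z a) (pt lam (M a))) G = 0 :=
    hp.mono fun a ha => ha.1
  have hQ : Q.Nonempty := hp.exists.choose_spec.2.1
  have hQi := hp.mono fun a ha => ha.2.2.1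
  obtain ⟨γ, hγ⟩ := (hp.mono fun a ha => ha.2.2.2).choice
  have he : 1 ≤ Q.card := hQ.card_pos
  have hem : Q.card ≤ m := by
    rw [← hcard]
    exact Finset.card_le_univ Q
  obtain ⟨b, hb⟩ : ∃ b : I → {i // i ∈ Q} × Fin r → Qa, b = fun a p => M a (p.1.1, p.2) +
      ∑ j : {j // j ∉ Q}, γ a (j, p.1) * M a (j.1, p.2) := ⟨_, rfl⟩
  have hb' : ∀ a i l, b a (i, l) = M a (i.1, l) + ∑ j, γ a (j, i) * M a (j.1, l) :=
    fun a i l => by rw [hb]
  have hcardQ : Fintype.card ({j // j ∉ Q} × {i // i ∈ Q}) = (m - Q.card) * Q.card := by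
    rw [Fintype.card_prod, Fintype.card_subtype_compl, Fintype.card_coe, hcard]
  -- kill the coefficients
  have hs1 := rk_split Δ (cls U A) (cls U γ)
  have hs2 : rk Δ (cls U γ) ≤ (m - Q.card) * Q.card := by
    rw [← hcardQ]
    exact rk_le_card Δ _
  obtain ⟨Δ1, hΔ1⟩ : ∃ Δ1, Δ1 = Δ ⊓ LinearMap.ker (evl (cls U γ)) := ⟨_, rfl⟩
  rw [← hΔ1] at hs1
  have hmem1 : ∀ D ∈ Δ1, D ∈ Δ ∧ ∀ p, D (cls U γ p) = 0 := by
    intro D hD
    rw [hΔ1] at hD
    obtain ⟨hD1, hD2⟩ := Submodule.mem_inf.1 hD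
    exact ⟨hD1, fun p => congrFun (LinearMap.mem_ker.1 hD2) p⟩
  have hrb : rk Δ1 (cls U b) ≤ Q.card * (Q.card - 1) :=
    rk_bS lam hlam hlog U G z M hG0 Q γ hQi hγ b hb' Δ1 (fun D hD => hz D (hmem1 D hD).1)
      (fun D hD => (hmem1 D hD).2)
  -- the class of b
  have hbcl : ∀ i l, cls U b (i, l) = cls U M (i.1, l) +
      ∑ j : {j // j ∉ Q}, cls U γ (j, i) * cls U M (j.1, l) := by
    intro i l
    have h3 : (fun a => b a (i, l)) = (fun a => M a (i.1, l)) +
        ∑ j : {j // j ∉ Q}, (fun a => γ a (j, i)) * (fun a => M a (j.1, l)) := by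
      funext a
      simp only [Pi.add_apply, Finset.sum_apply, Pi.mul_apply]
      exact hb' a i l
    unfold cls
    rw [h3, map_add, map_sum]
    simp only [map_mul]
  -- the class of the vector of a functional, applied to derivatives of M
  have hucl : ∀ (α : I → {i // i ∈ Q} → Qa) (u' : I → {j // j ∉ Q} → Qa) (f : ι → UP U Qa),
      ∑ t, cls U (fun a => uvec Q (γ a) (α a) (u' a)) t * f t =
        ∑ i, cls U α i * (f i.1 + ∑ j : {j // j ∉ Q}, cls U γ (j, i) * f j.1) +
          ∑ j, cls U u' j * f j.1 := by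
    intro α u' f
    rw [sum_split Q]
    have h3 : ∀ i : {i // i ∈ Q}, cls U (fun a => uvec Q (γ a) (α a) (u' a)) i.1 = cls U α i := by
      intro i
      unfold cls uvec
      congr 1
      funext a
      dsimp only
      rw [dif_pos i.2]
    have h4 : ∀ j : {j // j ∉ Q}, cls U (fun a => uvec Q (γ a) (α a) (u' a)) j.1 =
        cls U u' j + ∑ i, cls U α i * cls U γ (j, i) := by
      intro j
      have h5 : (fun a => uvec Q (γ a) (α a) (u' a) j.1) = (fun a => u' a j) +
          ∑ i, (fun a => α a i) * (fun a => γ a (j, i)) := by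
        funext a
        simp only [Pi.add_apply, Finset.sum_apply, Pi.mul_apply]
        unfold uvec
        rw [dif_neg j.2]
      unfold cls
      rw [h5, map_add, map_sum]
      simp only [map_mul]
    simp only [h3, h4, mul_add, add_mul, Finset.sum_add_distrib, Finset.sum_mul, Finset.mul_sum]
    rw [add_assoc]
    congr 1
    rw [add_comm]
    congr 1
    rw [Finset.sum_comm]
    exact Finset.sum_congr rfl fun i _ => Finset.sum_congr rfl fun j _ => by ring
  have hDb : ∀ D ∈ Δ1, ∀ i l, D (cls U b (i, l)) = D (cls U M (i.1, l)) +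
      ∑ j : {j // j ∉ Q}, cls U γ (j, i) * D (cls U M (j.1, l)) := by
    intro D hD i l
    rw [hbcl, map_add, map_sum]
    congr 1
    refine Finset.sum_congr rfl fun j _ => ?_
    rw [Derivation.leibniz, (hmem1 D hD).2, smul_zero, add_zero, smul_eq_mul]
  by_cases hcase : ∀ᶠ a in (U : Filter I), ∃ α : {i // i ∈ Q} → Qa,
      (∀ g ∈ Γ a, ∑ i, α i * rho Q (γ a) g i = 0) ∧ ∑ i, α i * rho Q (γ a) (c a) i ≠ 0
  · -- the directions are transversal
    obtain ⟨α, hα⟩ := hcase.choice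
    have h3 : rk Δ1 (cls U A) ≤ rk Δ1 (cls U b) := by
      apply rk_le_of_forall
      intro D hD hDb0 s
      refine hinj D (hmem1 D hD).1 (fun a => uvec Q (γ a) (α a) 0) ?_ (fun l => ?_) s
      · refine hα.mono fun a ha => ⟨fun g hg => ?_, ?_⟩
        · rw [uvec_sum, ha.1 g hg]
          simp
        · rw [uvec_sum]
          simpa using ha.2
      · have h4 := hucl α (fun _ => 0) (fun t => D (cls U M (t, l)))
        have h5 : ∀ i : {i // i ∈ Q}, D (cls U M (i.1, l)) +
            ∑ j : {j // j ∉ Q}, cls U γ (j, i) * D (cls U M (j.1, l)) = 0 := by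
          intro i
          rw [← hDb D hD i l]
          exact hDb0 (i, l)
        have h6 : ∀ j : {j // j ∉ Q}, cls U (fun _ => (0 : {j // j ∉ Q} → Qa)) j = 0 := by
          intro j
          exact map_zero (UP.mk U)
        simp only [h5, h6, mul_zero, zero_mul, Finset.sum_const_zero, add_zero] at h4
        exact h4
    have h4 := arith1 he hem
    omega
  · -- some direction is tangent
    rw [← Ultrafilter.eventually_not] at hcase
    have hc0 : ∀ᶠ a in (U : Filter I), ∃ g0 ∈ Γ a, rho Q (γ a) (c a + g0) = 0 := by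
      refine hcase.mono fun a ha => ?_
      by_contra hno
      apply ha
      have h3 : rho Q (γ a) (c a) ∉ (Γ a).map (rho Q (γ a)) := by
        rintro ⟨g, hg, hgc⟩
        refine hno ⟨-g, Submodule.neg_mem _ hg, ?_⟩
        rw [map_add, map_neg, hgc, add_neg_cancel]
      obtain ⟨φ, hφ1, hφ2⟩ := Submodule.exists_le_ker_of_notMem h3
      refine ⟨fun i => φ (Pi.single i 1), fun g hg => ?_, ?_⟩
      · rw [← dual_eq]
        exact hφ2 ⟨g, hg, rfl⟩
      · rw [← dual_eq]
        exact hφ1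
    obtain ⟨g0, hg0⟩ := hc0.choice
    obtain ⟨res, hres⟩ : ∃ res : (ι → Qa) →ₗ[Qa] ({j // j ∉ Q} → Qa),
        res = LinearMap.funLeft Qa Qa (fun j : {j // j ∉ Q} => j.1) := ⟨_, rfl⟩
    have hres' : ∀ v j, res v j = v j.1 := by
      intro v j
      rw [hres]
      rfl
    have hs3 := rk_split Δ1 (cls U A) (cls U b)
    obtain ⟨Δ2, hΔ2⟩ : ∃ Δ2, Δ2 = Δ1 ⊓ LinearMap.ker (evl (cls U b)) := ⟨_, rfl⟩
    rw [← hΔ2] at hs3
    have hmem2 : ∀ D ∈ Δ2, D ∈ Δ1 ∧ ∀ p, D (cls U b p) = 0 := by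
      intro D hD
      rw [hΔ2] at hD
      obtain ⟨hD1, hD2⟩ := Submodule.mem_inf.1 hD
      exact ⟨hD1, fun p => congrFun (LinearMap.mem_ker.1 hD2) p⟩
    have h3 := IH (m - Q.card) (by omega) (NP ζ ι Q r) {j // j ∉ Q} (by
      rw [Fintype.card_subtype_compl, Fintype.card_coe, hcard]) (red lam Q F)
      (fun a => Sum.elim (z a) (Sum.elim (γ a) (b a))) (fun a p => M a (p.1.1, p.2))
      (fun a => res (c a + g0 a)) (fun a => (Γ a ⊓ LinearMap.ker (rho Q (γ a))).map res) Δ2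
      ?_ ?_ ?_ ?_
    · have h4 := arith2 he hem
      omega
    · rintro D hD (t | (p | p))
      · exact hz D (hmem1 D (hmem2 D hD).1).1 t
      · exact (hmem1 D (hmem2 D hD).1).2 p
      · exact (hmem2 D hD).2 p
    · filter_upwards [h0] with a ha
      rw [eval_red, full_pt lam Q (γ a) (M a) (b a) (hb' a)]
      exact ha
    · filter_upwards [h1, hg0] with a ha ha2
      rintro _ ⟨g, ⟨hg1, hg2⟩, rfl⟩
      obtain ⟨s, hs⟩ := ha (g0 a + g) (Submodule.add_mem _ ha2.1 hg1)
      refine ⟨s, ?_⟩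
      rw [eval_red]
      obtain ⟨d, hd⟩ : ∃ d : ι → Qa, d = c a + (g0 a + g) := ⟨_, rfl⟩
      have hd0 : rho Q (γ a) d = 0 := by
        rw [hd, ← add_assoc, map_add, ha2.2, zero_add]
        exact hg2
      have hdr : ∀ t : {j // j ∉ Q}, (res (c a + g0 a) + res g) t = d t.1 := by
        intro t
        rw [← map_add, hres', hd, add_assoc]
      rw [← hd] at hs
      have h4 : full lam Q (γ a) (b a) (fun t => pt lam (fun p : {j // j ∉ Q} × Fin r =>
          M a (p.1.1, p.2)) t + s * (((res (c a + g0 a) + res g) t : Qa) : ℂ)) =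
          fun t => pt lam (M a) t + s * (d t : ℂ) := by
        have h5 := full_pt lam Q (γ a) (M a) (b a) (hb' a)
        have h5' : (fun t => pt lam (fun p : {j // j ∉ Q} × Fin r => M a (p.1.1, p.2)) t +
            s * (((res (c a + g0 a) + res g) t : Qa) : ℂ)) =
            fun t => pt lam (fun p : {j // j ∉ Q} × Fin r => M a (p.1.1, p.2)) t +
              s * (d t.1 : ℂ) := by
          funext t
          rw [hdr]
        rw [h5']
        funext i
        have h6 := congrFun h5 i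
        rw [← h6]
        unfold full
        by_cases hi : i ∈ Q
        · rw [dif_pos hi, dif_pos hi]
          have h7 : d i = - ∑ j : {j // j ∉ Q}, γ a (j, ⟨i, hi⟩) * d j.1 := by
            have h8 := congrFun hd0 ⟨i, hi⟩
            rw [rho_apply, Pi.zero_apply] at h8
            exact eq_neg_of_add_eq_zero_left h8
          have h8 : (d i : ℂ) = - ∑ j : {j // j ∉ Q}, (γ a (j, ⟨i, hi⟩) : ℂ) * (d j.1 : ℂ) := by
            have h9 : ((d i : Qa) : ℂ) =
                ((- ∑ j : {j // j ∉ Q}, γ a (j, ⟨i, hi⟩) * d j.1 : Qa) : ℂ) :=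
              congrArg (fun q : Qa => (q : ℂ)) h7
            rw [h9]
            push_cast
            rfl
          rw [h8, mul_neg, Finset.mul_sum]
          simp only [mul_add, Finset.sum_add_distrib]
          rw [sub_add_eq_sub_sub, sub_eq_add_neg _ (∑ _, _ * (_ * _))]
          congr 2
          exact Finset.sum_congr rfl fun j _ => by ring
        · rw [dif_neg hi, dif_neg hi]
      rw [h4]
      exact hs
    · intro D hD u' hu' hu'' s
      -- the functional
      have hα : ∀ᶠ a in (U : Filter I), ∃ α : {i // i ∈ Q} → Qa,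
          (∀ g ∈ Γ a, ∑ t, uvec Q (γ a) α (u' a) t * g t = 0) ∧
            ∑ t, uvec Q (γ a) α (u' a) t * c a t ≠ 0 := by
        filter_upwards [hu', hg0] with a ha ha2
        obtain ⟨φ, hφ⟩ : ∃ φ : (ι → Qa) →ₗ[Qa] Qa, φ = -∑ j : {j // j ∉ Q},
            u' a j • LinearMap.proj j.1 := ⟨_, rfl⟩
        have hφ' : ∀ v, φ v = - ∑ j : {j // j ∉ Q}, u' a j * v j.1 := by
          intro v
          rw [hφ, LinearMap.neg_apply, LinearMap.sum_apply]
          rfl
        obtain ⟨α, hα⟩ := factor (rho Q (γ a)) φ (Γ a) (by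
          intro g hg hg2
          rw [hφ', neg_eq_zero]
          have h4 := ha.1 (res g) ⟨g, ⟨hg, hg2⟩, rfl⟩
          simp only [hres'] at h4
          exact h4)
        have h5 : ∀ g ∈ Γ a, ∑ t, uvec Q (γ a) (fun i => α (Pi.single i 1)) (u' a) t * g t = 0 := by
          intro g hg
          rw [uvec_sum, ← dual_eq, hα g hg, hφ', neg_add_cancel]
        refine ⟨fun i => α (Pi.single i 1), h5, ?_⟩
        have h6 : ∑ t, uvec Q (γ a) (fun i => α (Pi.single i 1)) (u' a) t * (c a + g0 a) t ≠ 0 := by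
          rw [uvec_sum, ← dual_eq, ha2.2, map_zero, zero_add]
          have h7 := ha.2
          simp only [hres'] at h7
          exact h7
        have h7 : ∑ t, uvec Q (γ a) (fun i => α (Pi.single i 1)) (u' a) t * (c a + g0 a) t =
            ∑ t, uvec Q (γ a) (fun i => α (Pi.single i 1)) (u' a) t * c a t +
            ∑ t, uvec Q (γ a) (fun i => α (Pi.single i 1)) (u' a) t * g0 a t := by
          rw [← Finset.sum_add_distrib]
          exact Finset.sum_congr rfl fun t _ => by rw [Pi.add_apply, mul_add]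
        rw [h7, h5 _ ha2.1, add_zero] at h6
        exact h6
      obtain ⟨α, hα'⟩ := hα.choice
      refine hinj D (hmem1 D (hmem2 D hD).1).1 (fun a => uvec Q (γ a) (α a) (u' a)) hα'
        (fun l => ?_) s
      have h4 := hucl α u' (fun t => D (cls U M (t, l)))
      have h5 : ∀ i : {i // i ∈ Q}, D (cls U M (i.1, l)) +
          ∑ j : {j // j ∉ Q}, cls U γ (j, i) * D (cls U M (j.1, l)) = 0 := by
        intro i
        rw [← hDb D (hmem2 D hD).1 i l]
        exact (hmem2 D hD).2 (i, l)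
      have h6 : ∑ j : {j // j ∉ Q}, cls U u' j * D (cls U M (j.1, l)) = 0 := hu'' l
      simp only [h5, h6, mul_zero, Finset.sum_const_zero, add_zero] at h4
      exact h4

end MP60829e.FS
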