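import Pool.Agent.Lib.MP_60829e_nt.FS.Claim
import Pool.Agent.Lib.MP_60829e_nt.FC.Gen
import Pool.Agent.Lib.MP_60829e_nt.FC.Defs

/-! # The column lemma, sharp constant `N + n (n - 1) + 1` -/

open MvPolynomial Module

namespace MP60829e.FS

open MP60829e.ST (Qa Lsp Lt)
open MP60829e.FC (Gen)
open MP60829e.PS
open MP60829e.SB

/-- The column lemma: for almost every value of the new functional, every zero `M lam` of
`P (z, ·)` in the kernel is a zero of the whole line in the direction of the last column. -/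
theorem colS {m n N r : ℕ} (hm : N + n * (n - 1) + 1 ≤ m) (lam : Fin (r + 1) → ℂ)
    (hlam : LinearIndependent Qa lam) (hlog : ∀ j, lam j ∈ Lsp) (x : ℕ → Fin m → ℚ)
    (U : Ultrafilter (Fin m → ℚ)) (hU : Gen U) (P : MvPolynomial (Fin N ⊕ Fin n) ℂ) :
    ∀ᶠ a in (U : Filter (Fin m → ℚ)), ∀ (z : Fin N → Qa) (M : Fin n × Fin (r + 1) → Qa),
      (∀ i s, ∑ j : Fin (r + 1), M (i, j) * ((Function.update x r a j s : ℚ) : Qa) = 0) →
      eval (Sum.elim (fun l => (z l : ℂ)) (TV.pt lam M)) P = 0 →
      ∀ s : ℂ, eval (Sum.elim (fun l => (z l : ℂ))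
        (fun i => TV.pt lam M i + s * (M (i, Fin.last r) : ℂ))) P = 0 := by
  classical
  by_contra hcon
  rw [← Ultrafilter.eventually_not] at hcon
  have h1 : ∀ᶠ a in (U : Filter (Fin m → ℚ)), ∃ q : (Fin N → Qa) × (Fin n × Fin (r + 1) → Qa),
      (∀ i s, ∑ j : Fin (r + 1), q.2 (i, j) * ((Function.update x r a j s : ℚ) : Qa) = 0) ∧
      eval (Sum.elim (fun l => (q.1 l : ℂ)) (TV.pt lam q.2)) P = 0 ∧
      ∃ s : ℂ, eval (Sum.elim (fun l => (q.1 l : ℂ))
        (fun i => TV.pt lam q.2 i + s * (q.2 (i, Fin.last r) : ℂ))) P ≠ 0 := by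
    refine hcon.mono fun a ha => ?_
    push Not at ha
    obtain ⟨z, M, h1, h2, s, h3⟩ := ha
    exact ⟨(z, M), h1, h2, s, h3⟩
  obtain ⟨q, hq⟩ := h1.choice
  obtain ⟨z, hzdef⟩ : ∃ z : (Fin m → ℚ) → Fin N → Qa, z = fun a => (q a).1 := ⟨_, rfl⟩
  obtain ⟨M, hMdef⟩ : ∃ M : (Fin m → ℚ) → Fin n × Fin (r + 1) → Qa, M = fun a => (q a).2 :=
    ⟨_, rfl⟩
  obtain ⟨A, hA⟩ : ∃ A : (Fin m → ℚ) → Fin m → Qa, A = fun a s => ((a s : ℚ) : Qa) := ⟨_, rfl⟩
  -- derivations
  have hind : AlgebraicIndependent Qa fun s : Fin m => UP.mk U fun a => A a s := by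
    rw [algebraicIndependent_iff]
    intro p hp
    by_contra hne
    have h2 : UP.mk U (fun i => eval (A i) p) = 0 := by
      rw [← hp]
      exact (FC.up_aeval U A p).symm
    have h3 := UP.mk_eq_zero.1 h2
    obtain ⟨i, hi1, hi2⟩ := (h3.and (hU p hne)).exists
    rw [hA] at hi1
    exact hi2 hi1
  have hex : ∀ s : Fin m, ∃ D : Derivation Qa (UP U Qa) (UP U Qa), ∀ s' : Fin m,
      D (UP.mk U fun a => A a s') = if s' = s then 1 else 0 := fun s =>
    exists_derivation_of_algebraicIndependent hind _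
  choose D hD using hex
  have hm1 : m ≤ rk (⊤ : Submodule (UP U Qa) (Derivation Qa (UP U Qa) (UP U Qa))) (cls U A) := by
    have h2 := le_rk_of_delta (Finset.univ : Finset (Fin m)) (cls U A) (fun s => D s.1) (by
      intro s t
      have h3 : cls U A t.1 = UP.mk U fun a => A a t.1 := rfl
      rw [h3, hD]
      simp only [Subtype.ext_iff])
    rwa [Finset.card_univ, Fintype.card_fin] at h2
  have hm2 := rk_split (⊤ : Submodule (UP U Qa) (Derivation Qa (UP U Qa) (UP U Qa))) (cls U A)
    (cls U z)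
  have hm3 : rk (⊤ : Submodule (UP U Qa) (Derivation Qa (UP U Qa) (UP U Qa))) (cls U z) ≤ N := by
    have h2 := rk_le_card (⊤ : Submodule (UP U Qa) (Derivation Qa (UP U Qa) (UP U Qa))) (cls U z)
    rwa [Fintype.card_fin] at h2
  -- the class of the linear relations
  have hrel : ∀ (i : Fin n) (s : Fin m), ∑ j : Fin r, cls U M (i, j.castSucc) *
      algebraMap Qa (UP U Qa) ((x j s : ℚ) : Qa) + cls U M (i, Fin.last r) * cls U A s = 0 := by
    intro i s
    have h2 : UP.mk U (fun a => ∑ j : Fin (r + 1), M a (i, j) *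
        ((Function.update x r a j s : ℚ) : Qa)) = 0 := by
      refine UP.mk_eq_zero.2 (hq.mono fun a ha => ?_)
      rw [hMdef]
      exact ha.1 i s
    have h3 : (fun a => ∑ j : Fin (r + 1), M a (i, j) *
        ((Function.update x r a j s : ℚ) : Qa)) = ∑ j : Fin r, (fun a => M a (i, j.castSucc)) *
          (fun _ => ((x j s : ℚ) : Qa)) + (fun a => M a (i, Fin.last r)) * (fun a => A a s) := by
      funext a
      simp only [Pi.add_apply, Finset.sum_apply, Pi.mul_apply]
      rw [Fin.sum_univ_castSucc]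
      congr 1
      · refine Finset.sum_congr rfl fun j _ => ?_
        rw [Function.update_of_ne]
        · rfl
        · rw [Fin.val_castSucc]
          exact (Fin.is_lt j).ne
      · rw [Fin.val_last, Function.update_self, hA]
    rw [h3, map_add, map_sum] at h2
    simp only [map_mul] at h2
    exact h2
  have hm4 := claimC lam hlam hlog U A n (Fin N) (Fin n) (Fintype.card_fin n) P z M
    (fun a i => M a (i, Fin.last r)) (⊤ ⊓ LinearMap.ker (evl (cls U z))) ?_ ?_ ?_ ?_
  · omega
  · intro D' hD' t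
    exact congrFun (LinearMap.mem_ker.1 (Submodule.mem_inf.1 hD').2) t
  · refine hq.mono fun a ha => ?_
    rw [hzdef, hMdef]
    exact ha.2.1
  · refine hq.mono fun a ha => ?_
    rw [hzdef, hMdef]
    exact ha.2.2
  · intro D' _ u hu hu' s
    have h2 : ∀ i : Fin n, ∑ j : Fin r, algebraMap Qa (UP U Qa) ((x j s : ℚ) : Qa) *
        D' (cls U M (i, j.castSucc)) + (cls U M (i, Fin.last r) * D' (cls U A s) +
          cls U A s * D' (cls U M (i, Fin.last r))) = 0 := by
      intro i
      have h3 := congrArg D' (hrel i s)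
      rw [map_zero, map_add, map_sum, Derivation.leibniz, smul_eq_mul, smul_eq_mul] at h3
      rw [← h3]
      congr 1
      refine Finset.sum_congr rfl fun j _ => ?_
      rw [Derivation.leibniz, Derivation.map_algebraMap, smul_zero, zero_add, smul_eq_mul]
    have h4 : ∑ i, u i * (∑ j : Fin r, algebraMap Qa (UP U Qa) ((x j s : ℚ) : Qa) *
        D' (cls U M (i, j.castSucc)) + (cls U M (i, Fin.last r) * D' (cls U A s) +
          cls U A s * D' (cls U M (i, Fin.last r)))) = 0 :=
      Finset.sum_eq_zero fun i _ => by rw [h2, mul_zero]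
    have h5 : ∑ i, u i * (∑ j : Fin r, algebraMap Qa (UP U Qa) ((x j s : ℚ) : Qa) *
        D' (cls U M (i, j.castSucc)) + (cls U M (i, Fin.last r) * D' (cls U A s) +
          cls U A s * D' (cls U M (i, Fin.last r)))) =
        ∑ j : Fin r, algebraMap Qa (UP U Qa) ((x j s : ℚ) : Qa) *
          (∑ i, u i * D' (cls U M (i, j.castSucc))) +
        ((∑ i, u i * cls U M (i, Fin.last r)) * D' (cls U A s) +
          cls U A s * ∑ i, u i * D' (cls U M (i, Fin.last r))) := by
      simp only [mul_add, Finset.sum_add_distrib, Finset.mul_sum, Finset.sum_mul]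
      rw [Finset.sum_comm]
      congr 1
      · exact Finset.sum_congr rfl fun j _ => Finset.sum_congr rfl fun i _ => by ring
      · congr 1
        · exact Finset.sum_congr rfl fun i _ => by ring
        · exact Finset.sum_congr rfl fun i _ => by ring
    rw [h5] at h4
    simp only [hu', mul_zero, Finset.sum_const_zero, zero_add, add_zero] at h4
    have h6 : ∑ i, u i * cls U M (i, Fin.last r) ≠ 0 := hu
    exact (mul_eq_zero.1 h4).resolve_left h6

end MP60829e.FS
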