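import Pool.Agent.Lib.MP_60829e_nt.FS.ClaimY
import Pool.Agent.Lib.MP_60829e_nt.FS.Col
import Pool.Agent.Lib.MP_60829e_nt.SY.Fin

/-! # The column lemma for linear relations with unknown logarithms, sharp constant -/

open MvPolynomial Module

namespace MP60829e.FS

open MP60829e.ST (Qa Lsp Lt)
open MP60829e.FC (Gen)
open MP60829e.PS
open MP60829e.SB

/-- More logarithms: a finite-dimensional space in `Lt` is generated by algebraic numbers, the given
logarithms and further ones. -/
theorem exists_logs {r : ℕ} (lam : Fin r → ℂ) (hlam : LinearIndependent Qa lam)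
    (hlog : ∀ j, lam j ∈ Lsp) (L0 : Submodule Qa ℂ) [FiniteDimensional Qa L0] (hL0 : L0 ≤ Lt) :
    ∃ (R : ℕ) (b : Fin R → ℂ), (∀ j, b j ∈ Lsp) ∧ LinearIndependent Qa (Fin.append lam b) ∧
      ∀ l ∈ L0, ∃ (β : Qa) (y : Fin (r + R) → Qa), l = (β : ℂ) + ∑ j, y j • Fin.append lam b j := by
  classical
  let bb := finBasis Qa L0
  have h1 : ∀ e, ∃ (β : Qa), ∃ l ∈ Lsp, ((bb e : L0) : ℂ) = (β : ℂ) + l := fun e =>
    SY.mem_Lt' (hL0 (bb e).2)
  choose β0 l0 hl0 hb0 using h1
  obtain ⟨S, hS⟩ : ∃ S : Submodule Qa ℂ, S = Submodule.span Qa (Set.range lam) := ⟨_, rfl⟩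
  obtain ⟨W, hW⟩ : ∃ W : Submodule Qa ℂ, W = S ⊔ Submodule.span Qa (Set.range l0) := ⟨_, rfl⟩
  have hWf : FiniteDimensional Qa W := by
    rw [hW, hS]
    have h2 : FiniteDimensional Qa (Submodule.span Qa (Set.range lam)) :=
      FiniteDimensional.span_of_finite Qa (Set.finite_range lam)
    have h3 : FiniteDimensional Qa (Submodule.span Qa (Set.range l0)) :=
      FiniteDimensional.span_of_finite Qa (Set.finite_range l0)
    exact Submodule.finiteDimensional_sup _ _
  have hWl : W ≤ Lsp := by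
    rw [hW, hS]
    refine sup_le (Submodule.span_le.2 ?_) (Submodule.span_le.2 ?_)
    · rintro _ ⟨j, rfl⟩
      exact hlog j
    · rintro _ ⟨j, rfl⟩
      exact hl0 j
  have hSW : S ≤ W := by
    rw [hW]
    exact le_sup_left
  obtain ⟨C, hC⟩ := Submodule.exists_isCompl S
  obtain ⟨W', hW'⟩ : ∃ W' : Submodule Qa ℂ, W' = C ⊓ W := ⟨_, rfl⟩
  have hW'f : FiniteDimensional Qa W' := by
    rw [hW']
    exact Submodule.finiteDimensional_inf_right _ _
  have hmod : W ≤ S ⊔ W' := by
    rw [hW', ← sup_inf_assoc_of_le C hSW, hC.sup_eq_top, top_inf_eq]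
  let b' := finBasis Qa W'
  obtain ⟨b, hb⟩ : ∃ b : Fin (finrank Qa W') → ℂ, b = fun e => ((b' e : W') : ℂ) := ⟨_, rfl⟩
  have hbW' : ∀ e, b e ∈ W' := by
    intro e
    rw [hb]
    exact (b' e).2
  have hbi : LinearIndependent Qa b := by
    rw [hb]
    exact b'.linearIndependent.map' W'.subtype (Submodule.ker_subtype W')
  have hbspan : W' ≤ Submodule.span Qa (Set.range b) := by
    intro w hw
    have h2 := congrArg W'.subtype (b'.sum_repr ⟨w, hw⟩)
    rw [map_sum] at h2
    simp only [map_smul, Submodule.subtype_apply] at h2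
    rw [← h2]
    refine Submodule.sum_mem _ fun e _ => Submodule.smul_mem _ _ (Submodule.subset_span ⟨e, ?_⟩)
    rw [hb]
  have hdis : Disjoint (Submodule.span Qa (Set.range lam)) (Submodule.span Qa (Set.range b)) := by
    rw [← hS]
    refine hC.disjoint.mono_right (Submodule.span_le.2 ?_)
    rintro _ ⟨e, rfl⟩
    have h2 := hbW' e
    rw [hW'] at h2
    exact h2.1
  have happ : Fin.append lam b = Sum.elim lam b ∘ finSumFinEquiv.symm := by
    funext t
    refine Fin.addCases (fun j => ?_) (fun j => ?_) t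
    · rw [Fin.append_left, Function.comp_apply, finSumFinEquiv_symm_apply_castAdd, Sum.elim_inl]
    · rw [Fin.append_right, Function.comp_apply, finSumFinEquiv_symm_apply_natAdd, Sum.elim_inr]
  have hli : LinearIndependent Qa (Fin.append lam b) := by
    rw [happ]
    exact (linearIndependent_equiv finSumFinEquiv.symm).2 (hlam.sum_type hbi hdis)
  refine ⟨finrank Qa W', b, fun j => ?_, hli, fun l hl => ?_⟩
  · have h2 := hbW' j
    rw [hW'] at h2
    exact hWl h2.2
  · have h2 : ∃ β : Qa, ∃ w ∈ W, l = (β : ℂ) + w := by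
      refine ⟨∑ e, bb.repr ⟨l, hl⟩ e * β0 e, ∑ e, bb.repr ⟨l, hl⟩ e • l0 e, ?_, ?_⟩
      · refine Submodule.sum_mem _ fun e _ => Submodule.smul_mem _ _ ?_
        rw [hW]
        exact Submodule.mem_sup_right (Submodule.subset_span ⟨e, rfl⟩)
      · have h3 := congrArg L0.subtype (bb.sum_repr ⟨l, hl⟩)
        rw [map_sum] at h3
        simp only [map_smul, Submodule.subtype_apply] at h3
        refine h3.symm.trans ?_
        push_cast
        rw [← Finset.sum_add_distrib]
        refine Finset.sum_congr rfl fun e _ => ?_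
        rw [hb0 e]
        have h4 : ∀ (c : Qa) (v : ℂ), c • v = (c : ℂ) * v := fun c v => rfl
        rw [h4, h4, mul_add]
    obtain ⟨β, w, hw, h3⟩ := h2
    refine ⟨β, ?_⟩
    have h4 : w ∈ Submodule.span Qa (Set.range (Fin.append lam b)) := by
      have h5 := hmod hw
      have h6 : S ⊔ W' ≤ Submodule.span Qa (Set.range (Fin.append lam b)) := by
        refine sup_le ?_ (hbspan.trans ?_)
        · rw [hS]
          refine Submodule.span_mono ?_
          rintro _ ⟨j, rfl⟩
          exact ⟨Fin.castAdd _ j, by rw [Fin.append_left]⟩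
        · refine Submodule.span_mono ?_
          rintro _ ⟨j, rfl⟩
          exact ⟨Fin.natAdd _ j, by rw [Fin.append_right]⟩
      exact h6 h5
    obtain ⟨y, hy⟩ := (Submodule.mem_span_range_iff_exists_fun Qa).1 h4
    exact ⟨y, by rw [h3, hy]⟩

/-- The polynomial `∑ j, (β_j + Y_j) Q_j (z, X)`. -/
noncomputable def FY {N n s : ℕ} (Q : Fin s → MvPolynomial (Fin N ⊕ Fin n) ℂ) :
    MvPolynomial ((Fin N ⊕ Fin s) ⊕ (Fin n ⊕ Fin s)) ℂ :=
  ∑ j, (X (Sum.inl (Sum.inr j)) + X (Sum.inr (Sum.inr j))) *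
    rename (Sum.map Sum.inl Sum.inl) (Q j)

theorem eval_FY {N n s : ℕ} (Q : Fin s → MvPolynomial (Fin N ⊕ Fin n) ℂ) (z : Fin N → Qa)
    (β : Fin s → Qa) (v : Fin n ⊕ Fin s → ℂ) :
    eval (pv (Sum.elim z β) v) (FY Q) = ∑ j, ((β j : ℂ) + v (Sum.inr j)) *
      eval (Sum.elim (fun l => (z l : ℂ)) (fun i => v (Sum.inl i))) (Q j) := by
  unfold FY
  rw [map_sum]
  refine Finset.sum_congr rfl fun j _ => ?_
  rw [map_mul, map_add, eval_X, eval_X, eval_rename]
  congr 2
  congr 1
  funext t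
  rcases t with t | t <;> rfl

/-- The column lemma for independent values. -/
theorem colI {m n N s r : ℕ} (hm : N + s + (n + s) * (n + s - 1) < m)
    (lam : Fin (r + 1) → ℂ) (hlam : LinearIndependent Qa lam) (hlog : ∀ j, lam j ∈ Lsp)
    (x : ℕ → Fin m → ℚ) (U : Ultrafilter (Fin m → ℚ)) (hU : Gen U)
    (Q : Fin s → MvPolynomial (Fin N ⊕ Fin n) ℂ) :
    ∀ᶠ a in (U : Filter (Fin m → ℚ)), ∀ (z : Fin N → Qa) (M : Fin n × Fin (r + 1) → Qa)
      (l : Fin s → ℂ),
      (∀ i s, ∑ j : Fin (r + 1), M (i, j) * ((Function.update x r a j s : ℚ) : Qa) = 0) →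
      (∀ j, l j ∈ Lt) →
      LinearIndependent Qa (fun j =>
        eval (Sum.elim (fun l => (z l : ℂ)) (TV.pt lam M)) (Q j)) →
      ∑ j, l j * eval (Sum.elim (fun l => (z l : ℂ)) (TV.pt lam M)) (Q j) = 0 →
      ∃ γ : Fin s → Qa, ∀ σ : ℂ, ∑ j, (l j + σ * (γ j : ℂ)) *
        eval (Sum.elim (fun l => (z l : ℂ))
          (fun i => TV.pt lam M i + σ * (M (i, Fin.last r) : ℂ))) (Q j) = 0 := by
  classical
  obtain ⟨L0, hL0f, hL0t, hL0⟩ := SY.exists_L0 (N := N) lam Q
  obtain ⟨R, b, hbl, hbi, hrep⟩ := exists_logs lam hlam hlog L0 hL0t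
  obtain ⟨lamb, hlamb⟩ : ∃ lamb : Fin (r + 1 + R) → ℂ, lamb = Fin.append lam b := ⟨_, rfl⟩
  rw [← hlamb] at hbi hrep
  have hlambl : ∀ j, lamb j ∈ Lsp := by
    intro j
    rw [hlamb]
    refine Fin.addCases (fun j => ?_) (fun j => ?_) j
    · rw [Fin.append_left]
      exact hlog j
    · rw [Fin.append_right]
      exact hbl j
  by_contra hcon
  rw [← Ultrafilter.eventually_not] at hcon
  have h1 : ∀ᶠ a in (U : Filter (Fin m → ℚ)),
      ∃ q : (Fin N → Qa) × (Fin n × Fin (r + 1) → Qa) × (Fin s → Qa) ×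
        (Fin s × Fin (r + 1 + R) → Qa),
      (∀ i s, ∑ j : Fin (r + 1), q.2.1 (i, j) * ((Function.update x r a j s : ℚ) : Qa) = 0) ∧
      ∑ j, ((q.2.2.1 j : ℂ) + pt lamb q.2.2.2 j) *
        eval (Sum.elim (fun l => (q.1 l : ℂ)) (TV.pt lam q.2.1)) (Q j) = 0 ∧
      ∀ γ : Fin s → Qa, ∃ σ : ℂ,
        ∑ j, ((q.2.2.1 j : ℂ) + (pt lamb q.2.2.2 j + σ * (γ j : ℂ))) *
          eval (Sum.elim (fun l => (q.1 l : ℂ))
            (fun i => TV.pt lam q.2.1 i + σ * (q.2.1 (i, Fin.last r) : ℂ))) (Q j) ≠ 0 := by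
    refine hcon.mono fun a ha => ?_
    push Not at ha
    obtain ⟨z, M, l, hM, hl, hind, h0, hno⟩ := ha
    have hlL := hL0 z M l hl hind h0
    choose β y hy using fun j => hrep (l j) (hlL j)
    refine ⟨(z, M, β, fun p => y p.1 p.2), hM, ?_, fun γ => ?_⟩
    · rw [← h0]
      refine Finset.sum_congr rfl fun j _ => ?_
      rw [hy j]
      rfl
    · obtain ⟨σ, hσ⟩ := hno γ
      refine ⟨σ, fun h2 => hσ ?_⟩
      rw [← h2]
      refine Finset.sum_congr rfl fun j _ => ?_
      rw [← add_assoc]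
      congr 2
      exact hy j
  obtain ⟨q, hq⟩ := h1.choice
  obtain ⟨z, hzdef⟩ : ∃ z : (Fin m → ℚ) → Fin N → Qa, z = fun a => (q a).1 := ⟨_, rfl⟩
  obtain ⟨M, hMdef⟩ : ∃ M : (Fin m → ℚ) → Fin n × Fin (r + 1) → Qa, M = fun a => (q a).2.1 :=
    ⟨_, rfl⟩
  obtain ⟨β, hβdef⟩ : ∃ β : (Fin m → ℚ) → Fin s → Qa, β = fun a => (q a).2.2.1 := ⟨_, rfl⟩
  obtain ⟨y, hydef⟩ : ∃ y : (Fin m → ℚ) → Fin s × Fin (r + 1 + R) → Qa,
      y = fun a => (q a).2.2.2 := ⟨_, rfl⟩
  obtain ⟨A, hA⟩ : ∃ A : (Fin m → ℚ) → Fin m → Qa, A = fun a s => ((a s : ℚ) : Qa) := ⟨_, rfl⟩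
  -- the big matrix
  obtain ⟨Mb, hMb⟩ : ∃ Mb : (Fin m → ℚ) → (Fin n ⊕ Fin s) × Fin (r + 1 + R) → Qa,
      Mb = fun a p => Sum.elim (fun i => Fin.append (fun j => M a (i, j)) (fun _ : Fin R => 0) p.2)
        (fun j => y a (j, p.2)) p.1 := ⟨_, rfl⟩
  have hMb1 : ∀ a i j, Mb a (Sum.inl i, Fin.castAdd R j) = M a (i, j) := by
    intro a i j
    rw [hMb]
    simp only [Sum.elim_inl, Fin.append_left]
  have hptl : ∀ a i, pt lamb (Mb a) (Sum.inl i) = TV.pt lam (M a) i := by
    intro a i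
    unfold pt TV.pt
    rw [Fin.sum_univ_add, hlamb, hMb]
    simp only [Sum.elim_inl, Fin.append_left, Fin.append_right, zero_smul,
      Finset.sum_const_zero, add_zero]
  have hptr : ∀ a j, pt lamb (Mb a) (Sum.inr j) = pt lamb (y a) j := by
    intro a j
    unfold pt
    rw [hMb]
    simp only [Sum.elim_inr]
  -- derivations
  have hind : AlgebraicIndependent Qa fun s : Fin m => UP.mk U fun a => A a s := by
    rw [algebraicIndependent_iff]
    intro p hp
    by_contra hne
    have h2 : UP.mk U (fun i => eval (A i) p) = 0 := by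
      rw [← hp]
      exact (FC.up_aeval U A p).symm
    have h3 := UP.mk_eq_zero.1 h2
    obtain ⟨i, hi1, hi2⟩ := (h3.and (hU p hne)).exists
    rw [hA] at hi1
    exact hi2 hi1
  have hex : ∀ s : Fin m, ∃ D : Derivation Qa (UP U Qa) (UP U Qa), ∀ s' : Fin m,
      D (UP.mk U fun a => A a s') = if s' = s then 1 else 0 := fun s =>
    exists_derivation_of_algebraicIndependent hind _
  choose D hD using hex
  have hm1 : m ≤ rk (⊤ : Submodule (UP U Qa) (Derivation Qa (UP U Qa) (UP U Qa))) (cls U A) := by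
    have h2 := le_rk_of_delta (Finset.univ : Finset (Fin m)) (cls U A) (fun s => D s.1) (by
      intro s t
      have h3 : cls U A t.1 = UP.mk U fun a => A a t.1 := rfl
      rw [h3, hD]
      simp only [Subtype.ext_iff])
    rwa [Finset.card_univ, Fintype.card_fin] at h2
  obtain ⟨zb, hzb⟩ : ∃ zb : (Fin m → ℚ) → Fin N ⊕ Fin s → Qa, zb = fun a =>
    Sum.elim (z a) (β a) := ⟨_, rfl⟩
  have hm2 := rk_split (⊤ : Submodule (UP U Qa) (Derivation Qa (UP U Qa) (UP U Qa))) (cls U A)
    (cls U zb)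
  have hm3 : rk (⊤ : Submodule (UP U Qa) (Derivation Qa (UP U Qa) (UP U Qa))) (cls U zb) ≤
      N + s := by
    have h2 := rk_le_card (⊤ : Submodule (UP U Qa) (Derivation Qa (UP U Qa) (UP U Qa))) (cls U zb)
    rwa [Fintype.card_sum, Fintype.card_fin, Fintype.card_fin] at h2
  -- the class of the linear relations
  have hrel : ∀ (i : Fin n) (s : Fin m), ∑ j : Fin r, cls U M (i, j.castSucc) *
      algebraMap Qa (UP U Qa) ((x j s : ℚ) : Qa) + cls U M (i, Fin.last r) * cls U A s = 0 := by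
    intro i s
    have h2 : UP.mk U (fun a => ∑ j : Fin (r + 1), M a (i, j) *
        ((Function.update x r a j s : ℚ) : Qa)) = 0 := by
      refine UP.mk_eq_zero.2 (hq.mono fun a ha => ?_)
      rw [hMdef]
      exact ha.1 i s
    have h3 : (fun a => ∑ j : Fin (r + 1), M a (i, j) *
        ((Function.update x r a j s : ℚ) : Qa)) = ∑ j : Fin r, (fun a => M a (i, j.castSucc)) *
          (fun _ => ((x j s : ℚ) : Qa)) + (fun a => M a (i, Fin.last r)) * (fun a => A a s) := by
      funext a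
      simp only [Pi.add_apply, Finset.sum_apply, Pi.mul_apply]
      rw [Fin.sum_univ_castSucc]
      congr 1
      · refine Finset.sum_congr rfl fun j _ => ?_
        rw [Function.update_of_ne]
        · rfl
        · rw [Fin.val_castSucc]
          exact (Fin.is_lt j).ne
      · rw [Fin.val_last, Function.update_self, hA]
    rw [h3, map_add, map_sum] at h2
    simp only [map_mul] at h2
    exact h2
  obtain ⟨Γ, hΓ⟩ : ∃ Γ : Submodule Qa (Fin n ⊕ Fin s → Qa), Γ =
    LinearMap.ker (LinearMap.funLeft Qa Qa (Sum.inl : Fin n → Fin n ⊕ Fin s)) := ⟨_, rfl⟩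
  have hΓmem : ∀ g, g ∈ Γ ↔ ∀ i, g (Sum.inl i) = 0 := by
    intro g
    rw [hΓ, LinearMap.mem_ker]
    exact funext_iff
  obtain ⟨c, hc⟩ : ∃ c : (Fin m → ℚ) → Fin n ⊕ Fin s → Qa, c = fun a =>
    Sum.elim (fun i => M a (i, Fin.last r)) 0 := ⟨_, rfl⟩
  have hm4 := claimY lamb hbi hlambl U A (n + s) (Fin N ⊕ Fin s) (Fin n ⊕ Fin s) (by
    rw [Fintype.card_sum, Fintype.card_fin, Fintype.card_fin]) (FY Q) zb Mb c (fun _ => Γ)
    (⊤ ⊓ LinearMap.ker (evl (cls U zb))) ?_ ?_ ?_ ?_
  · omega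
  · intro D' hD' t
    exact congrFun (LinearMap.mem_ker.1 (Submodule.mem_inf.1 hD').2) t
  · refine hq.mono fun a ha => ?_
    rw [hzb]
    dsimp only
    rw [eval_FY]
    simp only [hptl, hptr]
    rw [hzdef, hMdef, hβdef, hydef]
    exact ha.2.1
  · refine hq.mono fun a ha g hg => ?_
    obtain ⟨σ, hσ⟩ := ha.2.2 (fun j => g (Sum.inr j))
    refine ⟨σ, ?_⟩
    rw [hzb]
    dsimp only
    rw [eval_FY]
    have h2 : ∀ i, (c a + g) (Sum.inl i) = M a (i, Fin.last r) := by
      intro i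
      rw [Pi.add_apply, (hΓmem g).1 hg, add_zero, hc]
      rfl
    have h3 : ∀ j, (c a + g) (Sum.inr j) = g (Sum.inr j) := by
      intro j
      rw [Pi.add_apply, hc]
      simp only [Sum.elim_inr, Pi.zero_apply, zero_add]
    simp only [hptl, hptr, h2, h3]
    rw [hzdef, hMdef, hβdef, hydef]
    exact hσ
  · intro D' _ u hu hu' s'
    -- the values of u outside the first block are zero
    have hur : ∀ j, cls U u (Sum.inr j) = 0 := by
      intro j
      refine UP.mk_eq_zero.2 (hu.mono fun a ha => ?_)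
      have h2 := ha.1 (Pi.single (Sum.inr j) 1) ((hΓmem _).2 fun i => by
        rw [Pi.single_eq_of_ne]
        exact Sum.inl_ne_inr)
      rw [Finset.sum_eq_single (Sum.inr j)] at h2
      · simpa using h2
      · intro t _ ht
        rw [Pi.single_eq_of_ne ht, mul_zero]
      · intro h
        exact absurd (Finset.mem_univ _) h
    have huc : ∑ i, cls U u (Sum.inl i) * cls U M (i, Fin.last r) ≠ 0 := by
      intro h2
      have h3 : (fun a => ∑ i, u a (Sum.inl i) * M a (i, Fin.last r)) =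
          ∑ i, (fun a => u a (Sum.inl i)) * (fun a => M a (i, Fin.last r)) := by
        funext a
        simp only [Finset.sum_apply, Pi.mul_apply]
      have h4 : UP.mk U (fun a => ∑ i, u a (Sum.inl i) * M a (i, Fin.last r)) = 0 := by
        rw [h3, map_sum]
        simp only [map_mul]
        exact h2
      obtain ⟨a, ha1, ha2⟩ := (hu.and (UP.mk_eq_zero.1 h4)).exists
      apply ha1.2
      rw [Fintype.sum_sum_type, hc]
      simp only [Sum.elim_inl, Sum.elim_inr, Pi.zero_apply, mul_zero, Finset.sum_const_zero,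
        add_zero]
      exact ha2
    have hu2 : ∀ j : Fin (r + 1), ∑ i, cls U u (Sum.inl i) * D' (cls U M (i, j)) = 0 := by
      intro j
      have h2 := hu' (Fin.castAdd R j)
      rw [Fintype.sum_sum_type] at h2
      simp only [hur, zero_mul, Finset.sum_const_zero, add_zero] at h2
      have h3 : ∀ i, cls U Mb (Sum.inl i, Fin.castAdd R j) = cls U M (i, j) := by
        intro i
        unfold cls
        simp only [hMb1]
      simp only [h3] at h2
      exact h2
    have h2 : ∀ i : Fin n, ∑ j : Fin r, algebraMap Qa (UP U Qa) ((x j s' : ℚ) : Qa) *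
        D' (cls U M (i, j.castSucc)) + (cls U M (i, Fin.last r) * D' (cls U A s') +
          cls U A s' * D' (cls U M (i, Fin.last r))) = 0 := by
      intro i
      have h3 := congrArg D' (hrel i s')
      rw [map_zero, map_add, map_sum, Derivation.leibniz, smul_eq_mul, smul_eq_mul] at h3
      rw [← h3]
      congr 1
      refine Finset.sum_congr rfl fun j _ => ?_
      rw [Derivation.leibniz, Derivation.map_algebraMap, smul_zero, zero_add, smul_eq_mul]
    have h4 : ∑ i, cls U u (Sum.inl i) * (∑ j : Fin r, algebraMap Qa (UP U Qa)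
        ((x j s' : ℚ) : Qa) * D' (cls U M (i, j.castSucc)) +
          (cls U M (i, Fin.last r) * D' (cls U A s') +
          cls U A s' * D' (cls U M (i, Fin.last r)))) = 0 :=
      Finset.sum_eq_zero fun i _ => by rw [h2, mul_zero]
    have h5 : ∑ i, cls U u (Sum.inl i) * (∑ j : Fin r, algebraMap Qa (UP U Qa)
        ((x j s' : ℚ) : Qa) * D' (cls U M (i, j.castSucc)) +
          (cls U M (i, Fin.last r) * D' (cls U A s') +
          cls U A s' * D' (cls U M (i, Fin.last r)))) =
        ∑ j : Fin r, algebraMap Qa (UP U Qa) ((x j s' : ℚ) : Qa) *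
          (∑ i, cls U u (Sum.inl i) * D' (cls U M (i, j.castSucc))) +
        ((∑ i, cls U u (Sum.inl i) * cls U M (i, Fin.last r)) * D' (cls U A s') +
          cls U A s' * ∑ i, cls U u (Sum.inl i) * D' (cls U M (i, Fin.last r))) := by
      simp only [mul_add, Finset.sum_add_distrib, Finset.mul_sum, Finset.sum_mul]
      rw [Finset.sum_comm]
      congr 1
      · exact Finset.sum_congr rfl fun j _ => Finset.sum_congr rfl fun i _ => by ring
      · congr 1
        · exact Finset.sum_congr rfl fun i _ => by ring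
        · exact Finset.sum_congr rfl fun i _ => by ring
    rw [h5] at h4
    simp only [hu2, mul_zero, Finset.sum_const_zero, zero_add, add_zero] at h4
    exact (mul_eq_zero.1 h4).resolve_left huc

end MP60829e.FS
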