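import Pool.Agent.Lib.MP_60829e_nt.FS.ColI
import Pool.Agent.Lib.MP_60829e_nt.SY.ColB

/-! # The column lemma for linear relations with unknown logarithms, sharp constant -/

open MvPolynomial Module

namespace MP60829e.FS

open MP60829e.ST (Qa Lsp Lt)
open MP60829e.FC (Xr Gen)
open MP60829e.SY (PC eval_PC)

private theorem smul_eq (c : Qa) (x : ℂ) : c • x = (c : ℂ) * x := rfl

/-- The column lemma. -/
theorem colSY {m n N s r : ℕ} (hm : N + s + (n + s) * (n + s - 1) + 1 ≤ m)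
    (lam : Fin (r + 1) → ℂ) (hlam : LinearIndependent Qa lam) (hlog : ∀ j, lam j ∈ Lsp)
    (x : ℕ → Fin m → ℚ) (U : Ultrafilter (Fin m → ℚ)) (hU : Gen U)
    (Q : Fin s → MvPolynomial (Fin N ⊕ Fin n) ℂ) :
    ∀ᶠ a in (U : Filter (Fin m → ℚ)), ∀ (z : Fin N → Qa) (M : Fin n × Fin (r + 1) → Qa)
      (l : Fin s → ℂ),
      (∀ i s, ∑ j : Fin (r + 1), M (i, j) * ((Function.update x r a j s : ℚ) : Qa) = 0) →
      (∀ j, l j ∈ Lt) →
      ∑ j, l j * eval (Sum.elim (fun l => (z l : ℂ)) (TV.pt lam M)) (Q j) = 0 →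
      ∃ γ : Fin s → Qa, ∀ σ : ℂ, ∑ j, (l j + σ * (γ j : ℂ)) *
        eval (Sum.elim (fun l => (z l : ℂ))
          (fun i => TV.pt lam M i + σ * (M (i, Fin.last r) : ℂ))) (Q j) = 0 := by
  classical
  have h1 : ∀ (s' : Fin (s + 1)) (ι : Fin (s' : ℕ) ↪ Fin s), ∀ᶠ a in (U : Filter (Fin m → ℚ)),
      ∀ (z : Fin N → Qa) (M : Fin n × Fin (r + 1) → Qa) (l : Fin (s' : ℕ) → ℂ),
      (∀ i s, ∑ j : Fin (r + 1), M (i, j) * ((Function.update x r a j s : ℚ) : Qa) = 0) →
      (∀ j, l j ∈ Lt) →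
      LinearIndependent Qa (fun j =>
        eval (Sum.elim (fun l => (z l : ℂ)) (TV.pt lam M)) (Q (ι j))) →
      ∑ j, l j * eval (Sum.elim (fun l => (z l : ℂ)) (TV.pt lam M)) (Q (ι j)) = 0 →
      ∃ γ : Fin (s' : ℕ) → Qa, ∀ σ : ℂ, ∑ j, (l j + σ * (γ j : ℂ)) *
        eval (Sum.elim (fun l => (z l : ℂ))
          (fun i => TV.pt lam M i + σ * (M (i, Fin.last r) : ℂ))) (Q (ι j)) = 0 := by
    intro s' ι
    have hs : (s' : ℕ) ≤ s := Nat.le_of_lt_succ s'.2
    have hm2 : N + (s' : ℕ) + (n + s') * (n + s' - 1) < m := by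
      refine lt_of_le_of_lt ?_ (Nat.lt_of_succ_le hm)
      have h3 : (n + s') * (n + s' - 1) ≤ (n + s) * (n + s - 1) :=
        Nat.mul_le_mul (by omega) (by omega)
      omega
    exact colI hm2 lam hlam hlog x U hU (fun j => Q (ι j))
  have h2 := Filter.eventually_all.2 fun s' => Filter.eventually_all.2 fun ι => h1 s' ι
  have hm' : (N + s) + n * (n - 1) + 1 ≤ m := by
    have h3 : n * (n - 1) ≤ (n + s) * (n + s - 1) := Nat.mul_le_mul (by omega) (by omega)
    omega
  filter_upwards [h2, colS hm' lam hlam hlog x U hU (PC Q)] with a ha hcol z M l hM hl h0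
  obtain ⟨h, hh⟩ : ∃ h : Fin s → ℂ, h = fun j =>
    eval (Sum.elim (fun l => (z l : ℂ)) (TV.pt lam M)) (Q j) := ⟨_, rfl⟩
  obtain ⟨s', ι, A, hli, hA⟩ := FR.exists_basis h
  have hs' := FR.le_of_emb ι
  -- the relations persist on the line
  have hrel : ∀ σ : ℂ, FR.Rels h (fun j => eval (Sum.elim (fun l => (z l : ℂ))
      (fun i => TV.pt lam M i + σ * (M (i, Fin.last r) : ℂ))) (Q j)) := by
    intro σ q hq
    have h4 := hcol (Fin.append z q) M hM (by
      rw [eval_PC, ← hq, hh]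
      exact Finset.sum_congr rfl fun j _ => rfl) σ
    rw [eval_PC] at h4
    rw [← h4]
    exact Finset.sum_congr rfl fun j _ => rfl
  have hA' : ∀ σ : ℂ, ∀ i, eval (Sum.elim (fun l => (z l : ℂ))
      (fun i => TV.pt lam M i + σ * (M (i, Fin.last r) : ℂ))) (Q i) = ∑ j, A i j •
        eval (Sum.elim (fun l => (z l : ℂ))
          (fun i => TV.pt lam M i + σ * (M (i, Fin.last r) : ℂ))) (Q (ι j)) :=
    fun σ i => hA _ (hrel σ) i
  have hswap : ∀ (σ : ℂ) (k : Fin s → ℂ), ∑ i, k i * eval (Sum.elim (fun l => (z l : ℂ))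
      (fun i => TV.pt lam M i + σ * (M (i, Fin.last r) : ℂ))) (Q i) =
      ∑ j, (∑ i, A i j • k i) * eval (Sum.elim (fun l => (z l : ℂ))
          (fun i => TV.pt lam M i + σ * (M (i, Fin.last r) : ℂ))) (Q (ι j)) := by
    intro σ k
    have e1 : ∀ i, k i * eval (Sum.elim (fun l => (z l : ℂ))
        (fun i => TV.pt lam M i + σ * (M (i, Fin.last r) : ℂ))) (Q i) =
        ∑ j, (A i j • k i) * eval (Sum.elim (fun l => (z l : ℂ))
          (fun i => TV.pt lam M i + σ * (M (i, Fin.last r) : ℂ))) (Q (ι j)) := by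
      intro i
      rw [hA' σ i, Finset.mul_sum]
      refine Finset.sum_congr rfl fun j _ => ?_
      rw [smul_eq, smul_eq]
      ring
    rw [Finset.sum_congr rfl fun i _ => e1 i, Finset.sum_comm]
    exact Finset.sum_congr rfl fun j _ => by rw [Finset.sum_mul]
  have h0' : ∑ j, l j * eval (Sum.elim (fun l => (z l : ℂ))
      (fun i => TV.pt lam M i + (0 : ℂ) * (M (i, Fin.last r) : ℂ))) (Q j) = 0 := by
    simp only [zero_mul, add_zero]
    exact h0
  obtain ⟨γ, hγ⟩ := ha ⟨s', by omega⟩ ι z M (fun j => ∑ i, A i j • l i) hM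
    (fun j => Submodule.sum_mem _ fun i _ => Lt.smul_mem _ (hl i)) (by
      rw [hh] at hli
      exact hli) (by
      rw [hswap] at h0'
      simpa only [zero_mul, add_zero] using h0')
  refine ⟨Function.extend ι γ 0, fun σ => ?_⟩
  have e2 : ∀ j, (l j + σ * ((Function.extend ι γ 0 j : Qa) : ℂ)) *
      eval (Sum.elim (fun l => (z l : ℂ))
        (fun i => TV.pt lam M i + σ * (M (i, Fin.last r) : ℂ))) (Q j) =
      l j * eval (Sum.elim (fun l => (z l : ℂ))
        (fun i => TV.pt lam M i + σ * (M (i, Fin.last r) : ℂ))) (Q j) +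
      σ * ((Function.extend ι γ 0 j : Qa) : ℂ) * eval (Sum.elim (fun l => (z l : ℂ))
        (fun i => TV.pt lam M i + σ * (M (i, Fin.last r) : ℂ))) (Q j) := fun j => by ring
  rw [Finset.sum_congr rfl fun j _ => e2 j, Finset.sum_add_distrib, hswap]
  have e3 : ∑ j, σ * ((Function.extend ι γ 0 j : Qa) : ℂ) * eval (Sum.elim (fun l => (z l : ℂ))
        (fun i => TV.pt lam M i + σ * (M (i, Fin.last r) : ℂ))) (Q j) =
      ∑ j, σ * (γ j : ℂ) * eval (Sum.elim (fun l => (z l : ℂ))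
        (fun i => TV.pt lam M i + σ * (M (i, Fin.last r) : ℂ))) (Q (ι j)) := by
    have h5 : ∑ j, σ * ((Function.extend ι γ 0 j : Qa) : ℂ) *
          eval (Sum.elim (fun l => (z l : ℂ))
          (fun i => TV.pt lam M i + σ * (M (i, Fin.last r) : ℂ))) (Q j) =
        ∑ j ∈ Finset.univ.map ι, σ * ((Function.extend ι γ 0 j : Qa) : ℂ) *
          eval (Sum.elim (fun l => (z l : ℂ))
          (fun i => TV.pt lam M i + σ * (M (i, Fin.last r) : ℂ))) (Q j) := by
      symm
      refine Finset.sum_subset (Finset.subset_univ _) fun i _ hi => ?_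
      have h6 : ¬ ∃ j, ι j = i := by
        rintro ⟨j, rfl⟩
        exact hi (Finset.mem_map_of_mem ι (Finset.mem_univ j))
      rw [Function.extend_apply' _ _ _ h6]
      simp
    rw [h5, Finset.sum_map]
    refine Finset.sum_congr rfl fun j _ => ?_
    rw [ι.injective.extend_apply]
  rw [e3, ← Finset.sum_add_distrib, ← hγ σ]
  exact Finset.sum_congr rfl fun j _ => by ring

end MP60829e.FS
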