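import Pool.Agent.Lib.MP_60829e_nt.FS.SYCol
import Pool.Agent.Lib.MP_60829e_nt.SY.Dep

/-! # Linear relations with unknown logarithms: the descent, sharp constant -/

open MvPolynomial Module

namespace MP60829e.FS

open MP60829e.ST (Qa Lsp Lt)
open MP60829e.FC (Xr Gen)
open MP60829e.FQ (pw)
open MP60829e.FL (AlgVal Lsp_disjoint_one)
open MP60829e.FR
open MP60829e.SY (pwa pwa_eq GoodS goodS_base exists_dual exists_alg GoodSR one_mem_Lt Lsp_le_Lt)

private theorem smul_eq (c : Qa) (x : ℂ) : c • x = (c : ℂ) * x := rfl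

private theorem eval_ext {σ τ : Type} (P : MvPolynomial σ ℂ) (f : σ → MvPolynomial τ ℂ)
    (x : τ → ℂ) : eval x (aeval f P) = eval (fun s => eval x (f s)) P := by
  induction P using MvPolynomial.induction_on with
  | C a => rw [algHom_C, eval_C, MvPolynomial.algebraMap_eq, eval_C]
  | add p q hp hq => rw [map_add, map_add, map_add, hp, hq]
  | mul_X p i hp => rw [map_mul, map_mul, map_mul, hp, aeval_X, eval_X]

/-- `P (z, ι_* X)`. -/
private noncomputable def PA {N n n' : ℕ} (ι : Fin n' ↪ Fin n)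
    (P : MvPolynomial (Fin N ⊕ Fin n) ℂ) : MvPolynomial (Fin N ⊕ Fin n') ℂ :=
  aeval (Sum.elim (fun l => X (Sum.inl l))
    (fun i => Function.extend ι (fun j => (X (Sum.inr j) : MvPolynomial (Fin N ⊕ Fin n') ℂ)) 0 i)) P

/-- `P (z, c + ι_* X)`. -/
private noncomputable def PB {N n n' : ℕ} (ι : Fin n' ↪ Fin n)
    (P : MvPolynomial (Fin N ⊕ Fin n) ℂ) : MvPolynomial (Fin (N + n) ⊕ Fin n') ℂ :=
  aeval (Sum.elim (fun l => X (Sum.inl (Fin.castAdd n l)))
    (fun i => X (Sum.inl (Fin.natAdd N i)) +
      Function.extend ι (fun j => (X (Sum.inr j) : MvPolynomial (Fin (N + n) ⊕ Fin n') ℂ)) 0 i)) P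

private theorem eval_extend {τ : Type} {n n' : ℕ} (ι : Fin n' ↪ Fin n) (y : τ → ℂ)
    (f : Fin n' → MvPolynomial τ ℂ) (i : Fin n) :
    eval y (Function.extend ι f 0 i) = Function.extend ι (fun j => eval y (f j)) 0 i := by
  by_cases h : ∃ j, ι j = i
  · obtain ⟨j, rfl⟩ := h
    rw [ι.injective.extend_apply, ι.injective.extend_apply]
  · rw [Function.extend_apply' _ _ _ h, Function.extend_apply' _ _ _ h, Pi.zero_apply,
      Pi.zero_apply, map_zero]

private theorem eval_PA {N n n' : ℕ} (ι : Fin n' ↪ Fin n) (P : MvPolynomial (Fin N ⊕ Fin n) ℂ)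
    (z : Fin N → Qa) (x : Fin n' → ℂ) :
    eval (Sum.elim (fun l => (z l : ℂ)) x) (PA ι P) = eval (pw z 0 ι x) P := by
  unfold PA pw
  rw [eval_ext]
  congr 2
  funext s
  rcases s with l | i
  · rw [Sum.elim_inl, eval_X, Sum.elim_inl, Sum.elim_inl]
  · rw [Sum.elim_inr, Sum.elim_inr, eval_extend, Pi.zero_apply]
    simp only [eval_X, Sum.elim_inr]
    rw [ZeroMemClass.coe_zero, zero_add]

private theorem eval_PB {N n n' : ℕ} (ι : Fin n' ↪ Fin n) (P : MvPolynomial (Fin N ⊕ Fin n) ℂ)
    (z : Fin N → Qa) (c : Fin n → Qa) (x : Fin n' → ℂ) :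
    eval (Sum.elim (fun l => ((Fin.append z c l : Qa) : ℂ)) x) (PB ι P) =
      eval (pw z c ι x) P := by
  unfold PB pw
  rw [eval_ext]
  congr 2
  funext s
  rcases s with l | i
  · rw [Sum.elim_inl, eval_X, Sum.elim_inl, Sum.elim_inl, Fin.append_left]
  · rw [Sum.elim_inr, Sum.elim_inr, map_add, eval_extend, eval_X, Sum.elim_inl, Fin.append_right]
    simp only [eval_X, Sum.elim_inr]

/-- The conclusion of the column lemma for all the restrictions. -/
private def ColSP {N n s m r : ℕ} (lam : ℕ → ℂ) (x : ℕ → Fin m → ℚ)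
    (Q : Fin s → MvPolynomial (Fin N ⊕ Fin n) ℂ) (a : Fin m → ℚ) (n' : ℕ) (ι : Fin n' ↪ Fin n) :
    Prop :=
  ∀ (z : Fin N → Qa) (c : Fin n → Qa), (n' = n → c = 0) → ∀ (M : Fin n' × Fin (r + 1) → Qa)
    (l : Fin s → ℂ),
    (∀ i s, ∑ j : Fin (r + 1), M (i, j) * ((Function.update x r a j s : ℚ) : Qa) = 0) →
    (∀ j, l j ∈ Lt) →
    ∑ j, l j * eval (pw z c ι (TV.pt (fun j : Fin (r + 1) => lam j) M)) (Q j) = 0 →
    ∃ γ : Fin s → Qa, ∀ σ : ℂ, ∑ j, (l j + σ * (γ j : ℂ)) *
      eval (pw z c ι (fun i => TV.pt (fun j : Fin (r + 1) => lam j) M i +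
        σ * (M (i, Fin.last r) : ℂ))) (Q j) = 0

private theorem arithS1 {N n n' s m : ℕ} (hs : 1 ≤ s)
    (hm : N + s + (n + s) * (n + s - 1) + 1 ≤ m) (hn : n' < n) :
    (N + n) + s + (n' + s) * (n' + s - 1) + 1 ≤ m := by
  obtain ⟨t, rfl⟩ := Nat.exists_eq_add_of_le hs
  obtain ⟨k, rfl⟩ := Nat.exists_eq_add_of_lt hn
  refine le_trans ?_ hm
  have e1 : n' + (1 + t) - 1 = n' + t := by omega
  have e2 : n' + k + 1 + (1 + t) - 1 = n' + k + 1 + t := by omega
  rw [e1, e2]
  nlinarith [Nat.zero_le (k * k), Nat.zero_le (k * n'), Nat.zero_le (k * t), Nat.zero_le (n' * t)]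

private theorem colS_all {N n s m r : ℕ} (hs : 1 ≤ s) (hm : N + s + (n + s) * (n + s - 1) + 1 ≤ m)
    (lam : ℕ → ℂ)
    (hlam : LinearIndependent Qa lam) (hlog : ∀ j, lam j ∈ Lsp) (x : ℕ → Fin m → ℚ)
    (U : Ultrafilter (Fin m → ℚ)) (hU : Gen U) (Q : Fin s → MvPolynomial (Fin N ⊕ Fin n) ℂ) :
    ∀ᶠ a in (U : Filter (Fin m → ℚ)), ∀ (n' : ℕ) (ι : Fin n' ↪ Fin n),
      ColSP (r := r) lam x Q a n' ι := by
  have hlam' : LinearIndependent Qa (fun j : Fin (r + 1) => lam j) :=
    hlam.comp _ Fin.val_injective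
  have h1 : ∀ (n' : Fin (n + 1)) (ι : Fin (n' : ℕ) ↪ Fin n),
      ∀ᶠ a in (U : Filter (Fin m → ℚ)), ColSP (r := r) lam x Q a n' ι := by
    rintro ⟨n', hn'⟩ ι
    dsimp only at ι ⊢
    by_cases hnn : n' = n
    · subst hnn
      filter_upwards [colSY (N := N) hm
        (fun j : Fin (r + 1) => lam j) hlam' (fun j => hlog j) x U hU
        (fun j => PA ι (Q j))] with a ha z c hc M l hM hl h0
      rw [hc rfl] at h0 ⊢
      obtain ⟨γ, hγ⟩ := ha z M l hM hl (by
        simp only [eval_PA]
        exact h0)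
      refine ⟨γ, fun σ => ?_⟩
      have h2 := hγ σ
      simp only [eval_PA] at h2
      exact h2
    · filter_upwards [colSY (N := N + n) (arithS1 hs hm (by omega))
        (fun j : Fin (r + 1) => lam j) hlam' (fun j => hlog j) x U hU
        (fun j => PB ι (Q j))] with a ha z c hc M l hM hl h0
      obtain ⟨γ, hγ⟩ := ha (Fin.append z c) M l hM hl (by
        simp only [eval_PB]
        exact h0)
      refine ⟨γ, fun σ => ?_⟩
      have h2 := hγ σ
      simp only [eval_PB] at h2
      exact h2
  have h2 : ∀ᶠ a in (U : Filter (Fin m → ℚ)), ∀ (n' : Fin (n + 1)) (ι : Fin (n' : ℕ) ↪ Fin n),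
      ColSP (r := r) lam x Q a n' ι :=
    Filter.eventually_all.2 fun n' => Filter.eventually_all.2 fun ι => h1 n' ι
  filter_upwards [h2] with a ha n' ι
  have h3 : n' < n + 1 := by
    have h4 := Fintype.card_le_of_embedding ι
    rw [Fintype.card_fin, Fintype.card_fin] at h4
    omega
  exact ha ⟨n', h3⟩ ι

private theorem Xr_le_Lsp {m r : ℕ} (lam : ℕ → ℂ) (hlog : ∀ j, lam j ∈ Lsp)
    (x : ℕ → Fin m → ℚ) : Xr lam x r ≤ Lsp := by
  rintro _ ⟨c, -, rfl⟩
  exact Submodule.sum_mem _ fun j _ => Lsp.smul_mem _ (hlog j)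

/-- The step of the descent. -/
theorem goodS_stepS {N n s m r : ℕ} (hs : 1 ≤ s)
    (hm : N + s + (n + s) * (n + s - 1) + 1 ≤ m) (lam : ℕ → ℂ)
    (hlam : LinearIndependent Qa lam) (hlog : ∀ j, lam j ∈ Lsp) (x : ℕ → Fin m → ℚ)
    (U : Ultrafilter (Fin m → ℚ)) (hU : Gen U) (Q : Fin s → MvPolynomial (Fin N ⊕ Fin n) ℂ)
    (hQ : ∀ j, AlgVal (Submodule.span Qa {(1 : ℂ)}) (Q j))
    (V : Submodule Qa ℂ) (h : GoodS Q (Xr lam x r) V) :
    ∀ᶠ a in (U : Filter (Fin m → ℚ)), GoodS Q (Xr lam (Function.update x r a) (r + 1)) V := by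
  classical
  filter_upwards [colS_all (r := r) hs hm lam hlam hlog x U hU Q] with a ha
  intro n' ι z c hc w hw hli hd l hl h0
  -- the matrix
  have hw' : ∀ i, ∃ cc : Fin (r + 1) → Qa,
      (∀ s, ∑ j, cc j * ((Function.update x r a j s : ℚ) : Qa) = 0) ∧
        w i = ∑ j, cc j • lam j := fun i => hw i
  choose M0 hM0 hM0' using hw'
  obtain ⟨M, hM⟩ : ∃ M : Fin n' × Fin (r + 1) → Qa, M = fun p => M0 p.1 p.2 := ⟨_, rfl⟩
  have hMw : TV.pt (fun j : Fin (r + 1) => lam j) M = w := by
    funext i
    rw [hM0' i, hM]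
    rfl
  have hM1 : ∀ i s, ∑ j : Fin (r + 1), M (i, j) * ((Function.update x r a j s : ℚ) : Qa) = 0 := by
    intro i s
    rw [hM]
    exact hM0 i s
  obtain ⟨γ, hline⟩ := ha n' ι z c hc M l hM1 hl (by rw [hMw]; exact h0)
  rw [hMw] at hline
  obtain ⟨d, hdd⟩ : ∃ d : Fin n' → Qa, d = fun i => M (i, Fin.last r) := ⟨_, rfl⟩
  have hline' : ∀ σ : ℂ, ∑ j, (l j + σ * (γ j : ℂ)) *
      eval (pw z c ι (fun i => w i + σ * (d i : ℂ))) (Q j) = 0 := by
    intro σ
    rw [hdd]
    exact hline σ
  -- elements with last coordinate zero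
  have hlast : ∀ cc : Fin (r + 1) → Qa, cc (Fin.last r) = 0 →
      (∀ s, ∑ j, cc j * ((Function.update x r a j s : ℚ) : Qa) = 0) →
      ∑ j, cc j • (fun j : Fin (r + 1) => lam j) j ∈ Xr lam x r := by
    intro cc hcc hcs
    refine ⟨fun j => cc j.castSucc, fun s => ?_, ?_⟩
    · have h1 := hcs s
      rw [Fin.sum_univ_castSucc, hcc, zero_mul, add_zero] at h1
      rw [← h1]
      refine Finset.sum_congr rfl fun j _ => ?_
      rw [Function.update_of_ne]
      · rfl
      · rw [Fin.val_castSucc]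
        exact (Fin.is_lt j).ne
    · rw [Fin.sum_univ_castSucc, hcc, zero_smul, add_zero]
      rfl
  by_cases hd0 : ∀ i, d i = 0
  · -- all the numbers are in `Xr lam x r`
    refine h n' ι z c hc w (fun i => ?_) hli hd l hl h0
    rw [hM0' i]
    refine hlast (M0 i) ?_ (hM0 i)
    have h1 := hd0 i
    rw [hdd, hM] at h1
    exact h1
  · push Not at hd0
    obtain ⟨j0, hj0⟩ := hd0
    cases n' with
    | zero => exact j0.elim0
    | succ k =>
      obtain ⟨q, hq⟩ : ∃ q : Fin k → Qa, q = fun j => d (j0.succAbove j) / d j0 := ⟨_, rfl⟩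
      obtain ⟨w', hw'⟩ : ∃ w' : Fin k → ℂ, w' = fun j => w (j0.succAbove j) - q j • w j0 :=
        ⟨_, rfl⟩
      have hw'X : ∀ j, w' j ∈ Xr lam x r := by
        intro j
        have h1 : w' j = ∑ j', (M0 (j0.succAbove j) j' - q j * M0 j0 j') •
            (fun j : Fin (r + 1) => lam j) j' := by
          rw [hw']
          dsimp only
          rw [hM0' (j0.succAbove j), hM0' j0, Finset.smul_sum, ← Finset.sum_sub_distrib]
          refine Finset.sum_congr rfl fun j' _ => ?_
          rw [sub_smul, mul_smul]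
        rw [h1]
        refine hlast _ ?_ fun s => ?_
        · have h2 : M0 (j0.succAbove j) (Fin.last r) = d (j0.succAbove j) := by
            rw [hdd, hM]
          have h3 : M0 j0 (Fin.last r) = d j0 := by
            rw [hdd, hM]
          rw [h2, h3, hq]
          dsimp only
          rw [div_mul_cancel₀ _ hj0, sub_self]
        · simp only [sub_mul, Finset.sum_sub_distrib, mul_assoc, ← Finset.mul_sum]
          rw [hM0 (j0.succAbove j) s, hM0 j0 s, mul_zero, sub_zero]
      have hw'span : ∀ j, w' j ∈ Submodule.span Qa (Set.range w) := by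
        intro j
        rw [hw']
        exact Submodule.sub_mem _ (Submodule.subset_span ⟨_, rfl⟩)
          (Submodule.smul_mem _ _ (Submodule.subset_span ⟨_, rfl⟩))
      have hli' : LinearIndependent Qa w' := by
        rw [Fintype.linearIndependent_iff]
        intro b hb j
        have h1 : ∑ i, (j0.insertNth (α := fun _ => Qa) (-∑ j, b j * q j) b) i • w i = 0 := by
          rw [Fin.sum_univ_succAbove _ j0, Fin.insertNth_apply_same]
          simp only [Fin.insertNth_apply_succAbove]
          rw [← hb, hw', neg_smul, Finset.sum_smul]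
          simp only [smul_sub, Finset.sum_sub_distrib, mul_smul]
          ring
        have h2 := (Fintype.linearIndependent_iff.1 hli) _ h1 (j0.succAbove j)
        rw [Fin.insertNth_apply_succAbove] at h2
        exact h2
      have hd' : Disjoint (Submodule.span Qa (Set.range w')) V := by
        refine hd.mono_left (Submodule.span_le.2 ?_)
        rintro _ ⟨j, rfl⟩
        exact hw'span j
      obtain ⟨ι', hι'⟩ : ∃ ι' : Fin k ↪ Fin n, ι' = (Fin.succAboveEmb j0).trans ι := ⟨_, rfl⟩
      have hι'a : ∀ j, ι' j = ι (j0.succAbove j) := by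
        intro j
        rw [hι']
        rfl
      have hkn : k ≠ n := by
        have h4 := Fintype.card_le_of_embedding ι
        rw [Fintype.card_fin, Fintype.card_fin] at h4
        omega
      -- the comparison of the points
      have hpt : ∀ (t : Qa) (y : Fin k → ℂ),
          pw z (fun i => c i + Function.extend ι (fun j => t * d j) 0 i) ι' y =
            pw z c ι (j0.insertNth (α := fun _ => ℂ) ((t * d j0 : Qa) : ℂ)
              (fun j => y j + ((t * d (j0.succAbove j) : Qa) : ℂ))) := by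
        intro t y
        unfold FQ.pw
        congr 1
        funext i
        beta_reduce
        by_cases hi : ∃ j, ι j = i
        · obtain ⟨j, rfl⟩ := hi
          rw [ι.injective.extend_apply, ι.injective.extend_apply]
          obtain hj | ⟨j', rfl⟩ := Fin.eq_self_or_eq_succAbove j0 j
          · subst hj
            rw [Fin.insertNth_apply_same]
            have h5 : ¬ ∃ j', ι' j' = ι j := by
              rintro ⟨j', hj'⟩
              rw [hι'a] at hj'
              exact Fin.succAbove_ne _ _ (ι.injective hj')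
            rw [Function.extend_apply' _ _ _ h5, Pi.zero_apply, add_zero]
            rfl
          · rw [Fin.insertNth_apply_succAbove, ← hι'a, ι'.injective.extend_apply]
            push_cast
            ring
        · rw [Function.extend_apply' _ _ _ hi, Function.extend_apply' _ _ _ hi]
          have h5 : ¬ ∃ j', ι' j' = i := by
            rintro ⟨j', hj'⟩
            rw [hι'a] at hj'
            exact hi ⟨_, hj'⟩
          rw [Function.extend_apply' _ _ _ h5]
          simp only [Pi.zero_apply, add_zero]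
      have hj0' : (d j0 : ℂ) ≠ 0 := by
        intro h5
        exact hj0 (by exact_mod_cast h5)
      -- the point `w'`
      have hptw : ∀ t : Qa, pw z (fun i => c i + Function.extend ι (fun j => t * d j) 0 i) ι' w' =
          pw z c ι (fun i => w i + ((t : ℂ) - w j0 / (d j0 : ℂ)) * (d i : ℂ)) := by
        intro t
        rw [hpt]
        congr 1
        funext i
        obtain hj | ⟨j', rfl⟩ := Fin.eq_self_or_eq_succAbove j0 i
        · subst hj
          rw [Fin.insertNth_apply_same]
          push_cast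
          field_simp
          ring
        · rw [Fin.insertNth_apply_succAbove, hw', hq]
          have h6 : (d (j0.succAbove j') / d j0) • w j0 =
              ((d (j0.succAbove j') : ℂ) / (d j0 : ℂ)) * w j0 := by
            rfl
          dsimp only
          rw [h6]
          push_cast
          field_simp
          ring
      have hwL : ∀ i, w i ∈ Lsp := fun i => Xr_le_Lsp lam hlog _ (hw i)
      -- the shifted logarithms
      obtain ⟨lt, hlt⟩ : ∃ lt : Qa → Fin s → ℂ, lt = fun t j =>
        l j + (t * γ j) • (1 : ℂ) - (γ j / d j0) • w j0 := ⟨_, rfl⟩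
      have hlt' : ∀ t j, lt t j = l j + ((t : ℂ) - w j0 / (d j0 : ℂ)) * (γ j : ℂ) := by
        intro t j
        rw [hlt]
        dsimp only
        rw [smul_eq, smul_eq]
        push_cast
        field_simp
        ring
      have hltL : ∀ t j, lt t j ∈ Lt := by
        intro t j
        rw [hlt]
        exact Lt.sub_mem (Lt.add_mem (hl j) (Lt.smul_mem _ one_mem_Lt))
          (Lt.smul_mem _ (Lsp_le_Lt (hwL j0)))
      -- the induction hypothesis
      have key0 : ∀ t : Qa, ∃ (at' : Fin s → Qa) (α : Fin s → Fin k → Qa), ∀ y : Fin k → Qa,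
          ∑ j, ((at' j : ℂ) + ∑ i, (α j i : ℂ) * (y i : ℂ)) *
            eval (pwa z (fun i => c i + Function.extend ι (fun j => t * d j) 0 i) ι' y)
              (Q j) = 0 ∧
          ∑ j, (lt t j - (at' j : ℂ) - ∑ i, (α j i : ℂ) * w' i) *
            eval (pwa z (fun i => c i + Function.extend ι (fun j => t * d j) 0 i) ι' y)
              (Q j) = 0 := by
        intro t
        refine h k ι' z (fun i => c i + Function.extend ι (fun j => t * d j) 0 i)
          (fun hk => absurd hk hkn) w' hw'X hli' hd' (lt t) (hltL t) ?_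
        rw [hptw]
        simp only [hlt']
        exact hline' _
      choose at' αt hkey using key0
      -- the dual functionals
      obtain ⟨π0, π, hπ01, hπ0w, hπ1, hπw⟩ := exists_dual w'
        (fun j => Xr_le_Lsp lam hlog _ (hw'X j)) hli'
      obtain ⟨a0, ha0⟩ : ∃ a0 : Fin s → Qa, a0 = fun j =>
        π0 (l j) - (γ j / d j0) * π0 (w j0) := ⟨_, rfl⟩
      obtain ⟨β, hβ⟩ : ∃ β : Fin s → Fin k → Qa, β = fun j i =>
        π i (l j) - (γ j / d j0) * π i (w j0) := ⟨_, rfl⟩
      have hπ0lt : ∀ t j, π0 (lt t j) = a0 j + t * γ j := by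
        intro t j
        rw [hlt, ha0]
        dsimp only
        rw [map_sub, map_add, map_smul, map_smul, hπ01, smul_eq_mul, smul_eq_mul, mul_one]
        ring
      have hπlt : ∀ t j i, π i (lt t j) = β j i := by
        intro t j i
        rw [hlt, hβ]
        dsimp only
        rw [map_sub, map_add, map_smul, map_smul, hπ1, smul_eq_mul, smul_eq_mul, mul_zero,
          add_zero]
      refine ⟨a0, fun j => j0.insertNth (α := fun _ => Qa)
        (γ j / d j0 - ∑ i, β j i * (d (j0.succAbove i) / d j0)) (β j), fun Y => ?_⟩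
      obtain ⟨t, ht⟩ : ∃ t : Qa, t = Y j0 / d j0 := ⟨_, rfl⟩
      obtain ⟨y, hy⟩ : ∃ y : Fin k → Qa, y = fun j =>
        Y (j0.succAbove j) - t * d (j0.succAbove j) := ⟨_, rfl⟩
      have hYt : t * d j0 = Y j0 := by
        rw [ht, div_mul_cancel₀ _ hj0]
      have hpY : pwa z (fun i => c i + Function.extend ι (fun j => t * d j) 0 i) ι' y =
          pwa z c ι Y := by
        unfold pwa
        rw [hpt]
        congr 1
        funext i
        obtain hj | ⟨j', rfl⟩ := Fin.eq_self_or_eq_succAbove j0 i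
        · subst hj
          rw [Fin.insertNth_apply_same, hYt]
        · rw [Fin.insertNth_apply_succAbove, hy]
          push_cast
          ring
      choose e he using fun j => exists_alg (hQ j) z c ι Y
      obtain ⟨hk1, hk2⟩ := hkey t y
      rw [hpY] at hk1 hk2
      simp only [← he] at hk1 hk2 ⊢
      -- the functionals
      have hf0 : ∑ j, (a0 j + t * γ j - at' t j) * e j = 0 := by
        have h5 : ∑ j, e j • (lt t j - (at' t j) • (1 : ℂ) - ∑ i, αt t j i • w' i) = 0 := by
          rw [← hk2]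
          refine Finset.sum_congr rfl fun j _ => ?_
          simp only [smul_eq, mul_one]
          ring
        have h6 := congrArg π0 h5
        rw [map_zero, map_sum] at h6
        simp only [map_smul, map_sub, map_sum, hπ01, hπ0w, hπ0lt, smul_eq_mul, mul_one,
          mul_zero, Finset.sum_const_zero, sub_zero] at h6
        rw [← h6]
        exact Finset.sum_congr rfl fun j _ => mul_comm _ _
      have hfi : ∀ i, ∑ j, (β j i - αt t j i) * e j = 0 := by
        intro i
        have h5 : ∑ j, e j • (lt t j - (at' t j) • (1 : ℂ) - ∑ i, αt t j i • w' i) = 0 := by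
          rw [← hk2]
          refine Finset.sum_congr rfl fun j _ => ?_
          simp only [smul_eq, mul_one]
          ring
        have h6 := congrArg (π i) h5
        rw [map_zero, map_sum] at h6
        simp only [map_smul, map_sub, map_sum, hπ1, hπw, hπlt, smul_eq_mul, mul_ite, mul_one,
          mul_zero, Finset.sum_ite_eq, Finset.mem_univ, if_true, sub_zero] at h6
        rw [← h6]
        exact Finset.sum_congr rfl fun j _ => mul_comm _ _
      have hf0' : ∑ j, ((a0 j : ℂ) + (t : ℂ) * (γ j : ℂ) - (at' t j : ℂ)) * (e j : ℂ) = 0 := by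
        have h5 := congrArg (fun u : Qa => (u : ℂ)) hf0
        push_cast at h5
        exact h5
      have hfi' : ∀ i, ∑ j, ((β j i : ℂ) - (αt t j i : ℂ)) * (e j : ℂ) = 0 := by
        intro i
        have h5 := congrArg (fun u : Qa => (u : ℂ)) (hfi i)
        push_cast at h5
        exact h5
      have hsw : ∀ v : Fin k → ℂ, ∑ j, (∑ i, ((β j i : ℂ) - (αt t j i : ℂ)) * v i) *
          (e j : ℂ) = 0 := by
        intro v
        have h5 : ∀ j, (∑ i, ((β j i : ℂ) - (αt t j i : ℂ)) * v i) * (e j : ℂ) =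
            ∑ i, v i * (((β j i : ℂ) - (αt t j i : ℂ)) * (e j : ℂ)) := by
          intro j
          rw [Finset.sum_mul]
          exact Finset.sum_congr rfl fun i _ => by ring
        rw [Finset.sum_congr rfl fun j _ => h5 j, Finset.sum_comm]
        refine Finset.sum_eq_zero fun i _ => ?_
        rw [← Finset.mul_sum, hfi' i, mul_zero]
      have hins : ∀ (j : Fin s) (v : Fin (k + 1) → ℂ),
          ∑ i, ((j0.insertNth (α := fun _ => Qa)
            (γ j / d j0 - ∑ i, β j i * (d (j0.succAbove i) / d j0)) (β j) i : Qa) : ℂ) * v i =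
          (γ j : ℂ) / (d j0 : ℂ) * v j0 +
            ∑ i, (β j i : ℂ) * (v (j0.succAbove i) -
              ((d (j0.succAbove i) : ℂ) / (d j0 : ℂ)) * v j0) := by
        intro j v
        rw [Fin.sum_univ_succAbove _ j0, Fin.insertNth_apply_same]
        simp only [Fin.insertNth_apply_succAbove]
        push_cast
        simp only [mul_sub, Finset.sum_sub_distrib, sub_mul, Finset.sum_mul]
        have h5 : ∑ i, (β j i : ℂ) * ((d (j0.succAbove i) : ℂ) / (d j0 : ℂ)) * v j0 =
            ∑ i, (β j i : ℂ) * ((d (j0.succAbove i) : ℂ) / (d j0 : ℂ) * v j0) :=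
          Finset.sum_congr rfl fun i _ => mul_assoc _ _ _
        rw [h5]
        ring
      constructor
      · have h5 : ∀ j, (a0 j : ℂ) + ∑ i, ((j0.insertNth (α := fun _ => Qa)
            (γ j / d j0 - ∑ i, β j i * (d (j0.succAbove i) / d j0)) (β j) i : Qa) : ℂ) *
              (Y i : ℂ) = ((at' t j : ℂ) + ∑ i, (αt t j i : ℂ) * (y i : ℂ)) +
            (((a0 j : ℂ) + (t : ℂ) * (γ j : ℂ) - (at' t j : ℂ)) +
              ∑ i, ((β j i : ℂ) - (αt t j i : ℂ)) * (y i : ℂ)) := by
          intro j
          rw [hins j (fun i => (Y i : ℂ))]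
          have h6 : ∀ i, (Y (j0.succAbove i) : ℂ) -
              ((d (j0.succAbove i) : ℂ) / (d j0 : ℂ)) * (Y j0 : ℂ) = (y i : ℂ) := by
            intro i
            rw [hy, ← hYt]
            push_cast
            field_simp
          simp only [h6]
          rw [← hYt]
          push_cast
          simp only [sub_mul, Finset.sum_sub_distrib]
          field_simp
          ring
        simp only [h5, add_mul, Finset.sum_add_distrib] at hk1 ⊢
        have h7 := hsw fun i => (y i : ℂ)
        simp only [sub_mul, add_mul, Finset.sum_add_distrib, Finset.sum_sub_distrib] at h7 hf0' ⊢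
        linear_combination hk1 + hf0' + h7
      · have h5 : ∀ j, l j - (a0 j : ℂ) - ∑ i, ((j0.insertNth (α := fun _ => Qa)
            (γ j / d j0 - ∑ i, β j i * (d (j0.succAbove i) / d j0)) (β j) i : Qa) : ℂ) *
              w i = (lt t j - (at' t j : ℂ) - ∑ i, (αt t j i : ℂ) * w' i) -
            (((a0 j : ℂ) + (t : ℂ) * (γ j : ℂ) - (at' t j : ℂ)) +
              ∑ i, ((β j i : ℂ) - (αt t j i : ℂ)) * w' i) := by
          intro j
          rw [hins j w]
          have h6 : ∀ i, w (j0.succAbove i) -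
              ((d (j0.succAbove i) : ℂ) / (d j0 : ℂ)) * w j0 = w' i := by
            intro i
            rw [hw', hq]
            dsimp only
            rw [smul_eq]
            push_cast
            ring
          simp only [h6]
          rw [hlt']
          simp only [sub_mul, Finset.sum_sub_distrib]
          field_simp
          ring
        simp only [h5]
        have h7 := hsw w'
        have h8 : ∀ j, (lt t j - (at' t j : ℂ) - ∑ i, (αt t j i : ℂ) * w' i -
            (((a0 j : ℂ) + (t : ℂ) * (γ j : ℂ) - (at' t j : ℂ)) +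
              ∑ i, ((β j i : ℂ) - (αt t j i : ℂ)) * w' i)) * (e j : ℂ) =
            (lt t j - (at' t j : ℂ) - ∑ i, (αt t j i : ℂ) * w' i) * (e j : ℂ) -
            (((a0 j : ℂ) + (t : ℂ) * (γ j : ℂ) - (at' t j : ℂ)) * (e j : ℂ) +
              (∑ i, ((β j i : ℂ) - (αt t j i : ℂ)) * w' i) * (e j : ℂ)) := by
          intro j
          ring
        rw [Finset.sum_congr rfl fun j _ => h8 j, Finset.sum_sub_distrib,
          Finset.sum_add_distrib, hk2, hf0', h7]
        ring


private theorem arithSR1 {N n n' s m : ℕ} (hs : 1 ≤ s) (hn : n' ≤ n)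
    (hm : N + s + (n + s) * (n + s - 1) + 1 ≤ m) :
    (N + (n - n') * n') + s + (n' + s) * (n' + s - 1) + 1 ≤ m := by
  obtain ⟨t, rfl⟩ := Nat.exists_eq_add_of_le hs
  obtain ⟨k, rfl⟩ := Nat.exists_eq_add_of_le hn
  refine le_trans ?_ hm
  rw [Nat.add_sub_cancel_left]
  have e1 : n' + (1 + t) - 1 = n' + t := by omega
  have e2 : n' + k + (1 + t) - 1 = n' + k + t := by omega
  rw [e1, e2]
  nlinarith [Nat.zero_le (k * k), Nat.zero_le (k * n'), Nat.zero_le (k * t), Nat.zero_le (n' * t)]

theorem goodSR_stepS {N n s m r : ℕ} (hs : 1 ≤ s)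
    (hm : N + s + (n + s) * (n + s - 1) + 1 ≤ m) (lam : ℕ → ℂ)
    (hlam : LinearIndependent Qa lam) (hlog : ∀ j, lam j ∈ Lsp) (x : ℕ → Fin m → ℚ)
    (U : Ultrafilter (Fin m → ℚ)) (hU : Gen U) (Q : Fin s → MvPolynomial (Fin N ⊕ Fin n) ℂ)
    (hQ : ∀ j, AlgVal (Submodule.span Qa {(1 : ℂ)}) (Q j))
    (V : Submodule Qa ℂ) (h : GoodSR Q (Xr lam x r) V) :
    ∀ᶠ a in (U : Filter (Fin m → ℚ)), GoodSR Q (Xr lam (Function.update x r a) (r + 1)) V := by
  have h1 : ∀ (n' : Fin (n + 1)) (ι : Fin (n' : ℕ) ↪ Fin n),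
      ∀ᶠ a in (U : Filter (Fin m → ℚ)),
        GoodS (fun j => PT ι (Q j)) (Xr lam (Function.update x r a) (r + 1)) V := by
    intro n' ι
    refine goodS_stepS hs ?_ lam hlam hlog x U hU (fun j => PT ι (Q j))
      (fun j => FL.algVal_PT ι (hQ j)) V (h n' ι)
    rw [kp_eq]
    exact arithSR1 hs (le_of_emb ι) hm
  have h2 : ∀ᶠ a in (U : Filter (Fin m → ℚ)), ∀ (n' : Fin (n + 1)) (ι : Fin (n' : ℕ) ↪ Fin n),
      GoodS (fun j => PT ι (Q j)) (Xr lam (Function.update x r a) (r + 1)) V :=
    Filter.eventually_all.2 fun n' => Filter.eventually_all.2 fun ι => h1 n' ι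
  filter_upwards [h2] with a ha n' ι
  have h3 := le_of_emb ι
  exact ha ⟨n', by omega⟩ ι

end MP60829e.FS
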